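import Mathlib

/-! The criterion (MP_c16a21). -/

set_option autoImplicit false

namespace Pool.Agent.CUBD

/-- The arithmetic hypothesis on `a`, `b` (the local conditions of a complete 2-descent): if `H` is
a divisor of `a` such that `H` is odd, or `4 ∣ a` and `a / H` is odd, `D` is a divisor of `b` with
all prime factors `≡ 1 (mod 4)`, and `g k = a² + b²`, such that `H D` is a square modulo every prime
factor of `a² + b²`, `H g` is a square modulo every prime factor `≡ 1 (mod 4)` of `b`, and `D g` is a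
square modulo every odd prime factor of `a`, then `H` and `D` are squares and `g = 1` or `k = 1`. -/
def Crit3 (a b : ℕ) : Prop :=
  ∀ H D g k : ℕ, H ∣ a → (H % 2 = 1 ∨ 4 ∣ a ∧ (a / H) % 2 = 1) → D ∣ b →
    (∀ p : ℕ, p.Prime → p ∣ D → p % 4 = 1) → g * k = a ^ 2 + b ^ 2 →
    (∀ p : ℕ, p.Prime → p ∣ a ^ 2 + b ^ 2 → IsSquare ((H * D : ℕ) : ZMod p)) →
    (∀ p : ℕ, p.Prime → p ∣ b → p % 4 = 1 → IsSquare ((H * g : ℕ) : ZMod p)) →
    (∀ p : ℕ, p.Prime → p ∣ a → p ≠ 2 → IsSquare ((D * g : ℕ) : ZMod p)) →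
    IsSquare H ∧ IsSquare D ∧ (g = 1 ∨ k = 1)

/-- The criterion for a prime `a² + b²`. -/
def CritPrime3 (a b : ℕ) : Prop :=
  (∀ H : ℕ, H ∣ a → (H % 2 = 1 ∨ 4 ∣ a ∧ (a / H) % 2 = 1) →
      (∀ p : ℕ, p.Prime → p ∣ b → p % 4 = 1 → IsSquare (H : ZMod p)) → IsSquare H) ∧
    ∀ D : ℕ, D ∣ b → (∀ p : ℕ, p.Prime → p ∣ D → p % 4 = 1) →
      (∀ p : ℕ, p.Prime → p ∣ a → p ≠ 2 → IsSquare (D : ZMod p)) → IsSquare D

end Pool.Agent.CUBD
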