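import Mathlib

/-! Descent for `t² + a² s² = □`, `t² + (a² + b²) s² = □` (MP_c16a21). -/

set_option autoImplicit false

namespace Pool.Agent.CUBD

lemma sq_cases (x : ℤ) : x ^ 2 % 16 = 0 ∨ x ^ 2 % 16 = 1 ∨ x ^ 2 % 16 = 4 ∨ x ^ 2 % 16 = 9 := by
  have h : x % 16 = 0 ∨ x % 16 = 1 ∨ x % 16 = 2 ∨ x % 16 = 3 ∨ x % 16 = 4 ∨ x % 16 = 5 ∨
    x % 16 = 6 ∨ x % 16 = 7 ∨ x % 16 = 8 ∨ x % 16 = 9 ∨ x % 16 = 10 ∨ x % 16 = 11 ∨
    x % 16 = 12 ∨ x % 16 = 13 ∨ x % 16 = 14 ∨ x % 16 = 15 := by omega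
  rcases h with h | h | h | h | h | h | h | h | h | h | h | h | h | h | h | h <;>
    simp [pow_two, Int.mul_emod, h]

lemma sq_odd (x : ℤ) (hx : x % 2 = 1) : x ^ 2 % 8 = 1 := by
  have h : x % 8 = 1 ∨ x % 8 = 3 ∨ x % 8 = 5 ∨ x % 8 = 7 := by omega
  rcases h with h | h | h | h <;> simp [pow_two, Int.mul_emod, h]

lemma sq_two (x : ℤ) (hx : x % 4 = 2) : x ^ 2 % 16 = 4 := by
  have h : x % 16 = 2 ∨ x % 16 = 6 ∨ x % 16 = 10 ∨ x % 16 = 14 := by omega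
  rcases h with h | h | h | h <;> simp [pow_two, Int.mul_emod, h]

lemma sq_four (x : ℤ) (hx : x % 4 = 0) : x ^ 2 % 16 = 0 := by
  have h : x % 16 = 0 ∨ x % 16 = 4 ∨ x % 16 = 8 ∨ x % 16 = 12 := by omega
  rcases h with h | h | h | h <;> simp [pow_two, Int.mul_emod, h]

lemma mul5 (q y : ℤ) (hq : q % 8 = 5) (hy : y % 8 = 1) : (q * y) % 8 = 5 := by
  rw [Int.mul_emod, hq, hy]; norm_num

lemma c_mod (a b : ℤ) (hab : a * b % 4 = 2) :
    (a % 2 = 1 ∧ b % 4 = 2 ∨ a % 4 = 2 ∧ b % 2 = 1) ∧ (a ^ 2 + b ^ 2) % 8 = 5 := by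
  have h : a % 2 = 1 ∧ b % 4 = 2 ∨ a % 4 = 2 ∧ b % 2 = 1 := by
    have h1 : a % 4 = 0 ∨ a % 4 = 1 ∨ a % 4 = 2 ∨ a % 4 = 3 := by omega
    have h2 : b % 4 = 0 ∨ b % 4 = 1 ∨ b % 4 = 2 ∨ b % 4 = 3 := by omega
    rw [Int.mul_emod] at hab
    rcases h1 with h1 | h1 | h1 | h1 <;> rcases h2 with h2 | h2 | h2 | h2 <;>
      rw [h1, h2] at hab <;> omega
  refine ⟨h, ?_⟩
  rcases h with ⟨h1, h2⟩ | ⟨h1, h2⟩
  · have := sq_odd a h1
    have := sq_two b h2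
    omega
  · have := sq_two a h1
    have := sq_odd b h2
    omega

lemma mul_odd_sq (a s : ℤ) (ha : a % 2 = 1) (hs : s ^ 2 % 8 = 1) : (a ^ 2 * s ^ 2) % 8 = 1 := by
  rw [Int.mul_emod, sq_odd a ha, hs]; norm_num

lemma mul_two_sq (a s : ℤ) (ha : a % 4 = 2) (hs : s ^ 2 % 8 = 1) :
    (a ^ 2 * s ^ 2) % 16 = 4 := by
  have h := sq_two a ha
  have h2 : s ^ 2 % 16 = 1 ∨ s ^ 2 % 16 = 9 := by omega
  rcases h2 with h2 | h2 <;> rw [Int.mul_emod, h, h2] <;> norm_num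

/-- `s` is even. -/
lemma s_even (a b s t u v : ℤ) (hab : a * b % 4 = 2)
    (h1 : t ^ 2 + a ^ 2 * s ^ 2 = u ^ 2) (h2 : t ^ 2 + (a ^ 2 + b ^ 2) * s ^ 2 = v ^ 2) :
    s % 2 = 0 := by
  by_contra hs
  have hs1 : s % 2 = 1 := by omega
  obtain ⟨hc, hq⟩ := c_mod a b hab
  have hs2 := sq_odd s hs1
  have hqs := mul5 _ _ hq hs2
  have hv := sq_cases v
  have hu := sq_cases u
  have ht : t % 2 = 1 ∨ t % 4 = 0 ∨ t % 4 = 2 := by omega
  rcases ht with ht | ht | ht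
  · have := sq_odd t ht
    omega
  · have := sq_four t ht
    omega
  · have ht2 := sq_two t ht
    rcases hc with ⟨ha, _⟩ | ⟨ha, _⟩
    · have := mul_odd_sq a s ha hs2
      omega
    · have := mul_two_sq a s ha hs2
      omega

lemma not_dvd_sum (p : ℕ) (hp : p.Prime) (hp3 : p % 4 = 3) (m n : ℤ) (hmn : Int.gcd m n = 1)
    (h : (p : ℤ) ∣ m ^ 2 + n ^ 2) : False := by
  have : Fact p.Prime := ⟨hp⟩
  have h0 : ((m ^ 2 + n ^ 2 : ℤ) : ZMod p) = 0 := (ZMod.intCast_zmod_eq_zero_iff_dvd _ p).mpr h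
  push_cast at h0
  have h1 : (m : ZMod p) ^ 2 = -(n : ZMod p) ^ 2 := by linear_combination h0
  by_cases hn : (n : ZMod p) = 0
  · rw [hn] at h1
    have hm : (m : ZMod p) = 0 := by
      have : (m : ZMod p) ^ 2 = 0 := by rw [h1]; ring
      exact pow_eq_zero_iff (two_ne_zero) |>.mp this
    have d1 : (p : ℤ) ∣ m := (ZMod.intCast_zmod_eq_zero_iff_dvd _ p).mp hm
    have d2 : (p : ℤ) ∣ n := (ZMod.intCast_zmod_eq_zero_iff_dvd _ p).mp hn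
    have d3 : (p : ℤ) ∣ (Int.gcd m n : ℤ) := Int.dvd_coe_gcd d1 d2
    rw [hmn] at d3
    have := Int.eq_one_of_dvd_one (by positivity) d3
    have h2 := hp.one_lt
    omega
  · exact ZMod.mod_four_ne_three_of_sq_eq_neg_sq' hn h1 hp3

/-- From `D g² = A²`, `D h² = B²` with `g`, `h` not both zero: `D` is a square. -/
lemma isSquare_of (p : ℕ) [Fact p.Prime] (D g h A B : ZMod p) (h1 : D * g ^ 2 = A ^ 2)
    (h2 : D * h ^ 2 = B ^ 2) (hgh : g ≠ 0 ∨ h ≠ 0) : IsSquare D := by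
  rcases hgh with hg | hh
  · exact ⟨A / g, by field_simp; linear_combination h1⟩
  · exact ⟨B / h, by field_simp; linear_combination h2⟩

/-- A coprime factorization of `c w²`. -/
lemma split_mul (α β c w : ℤ) (hα : 0 < α) (hβ : 0 < β) (hc : 0 < c) (hw : 0 < w)
    (hcop : IsCoprime α β) (h : α * β = c * w ^ 2) :
    ∃ g k X Y : ℤ, 0 < g ∧ 0 < k ∧ 0 < X ∧ 0 < Y ∧ g * k = c ∧ α = g * X ^ 2 ∧
      β = k * Y ^ 2 ∧ X * Y = w := by
  obtain ⟨g, hg⟩ : ∃ g : ℤ, g = (Int.gcd α c : ℤ) := ⟨_, rfl⟩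
  have hg0 : 0 < g := by
    rw [hg]
    have : 0 < Int.gcd α c := Int.gcd_pos_of_ne_zero_left _ hα.ne'
    exact_mod_cast this
  obtain ⟨α', hα'⟩ : g ∣ α := by rw [hg]; exact Int.gcd_dvd_left α c
  obtain ⟨k, hk⟩ : g ∣ c := by rw [hg]; exact Int.gcd_dvd_right α c
  have hk0 : 0 < k := by rw [hk] at hc; exact (mul_pos_iff_of_pos_left hg0).mp hc
  have hα'0 : 0 < α' := by rw [hα'] at hα; exact (mul_pos_iff_of_pos_left hg0).mp hα
  have hck : Int.gcd α' k = 1 := by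
    have h3 : Int.gcd (g * α') (g * k) = g.natAbs * Int.gcd α' k := Int.gcd_mul_left g α' k
    rw [← hα', ← hk] at h3
    have h4 : g.natAbs = Int.gcd α c := by rw [hg]; simp
    rw [h4] at h3
    have h5 : 0 < Int.gcd α c := Int.gcd_pos_of_ne_zero_left _ hα.ne'
    have h6 : Int.gcd α c * 1 = Int.gcd α c * Int.gcd α' k := by rw [mul_one]; exact h3
    exact (Nat.eq_of_mul_eq_mul_left h5 h6).symm
  have h7 : α' * β = k * w ^ 2 := by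
    apply mul_left_cancel₀ hg0.ne'
    rw [hα', hk] at h
    linear_combination h
  have h8 : k ∣ α' * β := ⟨_, h7⟩
  obtain ⟨β', hβ'⟩ := (Int.isCoprime_iff_gcd_eq_one.mpr hck).symm.dvd_of_dvd_mul_left h8
  have hβ'0 : 0 < β' := by rw [hβ'] at hβ; exact (mul_pos_iff_of_pos_left hk0).mp hβ
  have h9 : α' * β' = w ^ 2 := by
    apply mul_left_cancel₀ hk0.ne'
    rw [hβ'] at h7
    linear_combination h7
  have hcop' : IsCoprime α' β' := by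
    rw [hα', hβ'] at hcop
    exact hcop.of_mul_left_right.of_mul_right_right
  obtain ⟨x, hx⟩ := Int.sq_of_gcd_eq_one (Int.isCoprime_iff_gcd_eq_one.mp hcop') h9
  obtain ⟨y, hy⟩ := Int.sq_of_gcd_eq_one (Int.isCoprime_iff_gcd_eq_one.mp hcop'.symm)
    (by rw [mul_comm]; exact h9)
  have hx1 : α' = x ^ 2 := by
    rcases hx with hx | hx
    · exact hx
    · nlinarith [sq_nonneg x]
  have hy1 : β' = y ^ 2 := by
    rcases hy with hy | hy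
    · exact hy
    · nlinarith [sq_nonneg y]
  have hx0 : 0 < |x| := by
    rw [abs_pos]; rintro rfl; simp at hx1; omega
  have hy0 : 0 < |y| := by
    rw [abs_pos]; rintro rfl; simp at hy1; omega
  refine ⟨g, k, |x|, |y|, hg0, hk0, hx0, hy0, hk.symm, ?_, ?_, ?_⟩
  · rw [sq_abs, ← hx1]; exact hα'
  · rw [sq_abs, ← hy1]; exact hβ'
  · have h1 : (|x| * |y|) ^ 2 = w ^ 2 := by rw [← h9, hx1, hy1, mul_pow, sq_abs, sq_abs]
    exact (sq_eq_sq₀ (by positivity) hw.le).mp h1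

/-- The end of the descent step. -/
lemma stepA (a c G m n s w X Y : ℤ) (hm : 0 < m) (hn : 0 < n) (hX : 0 < X) (hY : 0 < Y)
    (hs : s = 2 * w) (has : a * s = 2 * m * n) (hXY : X * Y = w)
    (h1 : m ^ 2 + X ^ 2 = G ^ 2) (h2 : n ^ 2 + c * Y ^ 2 = G ^ 2) :
    ∃ s' t' u' v' : ℤ, 0 < s' ∧ s' < s ∧ 0 < t' ∧ t' ^ 2 + a ^ 2 * s' ^ 2 = u' ^ 2 ∧
      t' ^ 2 + c * s' ^ 2 = v' ^ 2 := by
  have haXY : a * (X * Y) = m * n := by
    rw [hXY]; rw [hs] at has; linarith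
  have hkey : m ^ 2 * (n ^ 2 + a ^ 2 * Y ^ 2) = (a * Y * G) ^ 2 := by
    have : (m * n) ^ 2 = (a * (X * Y)) ^ 2 := by rw [haXY]
    calc m ^ 2 * (n ^ 2 + a ^ 2 * Y ^ 2) = (m * n) ^ 2 + m ^ 2 * a ^ 2 * Y ^ 2 := by ring
      _ = a ^ 2 * Y ^ 2 * (m ^ 2 + X ^ 2) := by rw [this]; ring
      _ = a ^ 2 * Y ^ 2 * G ^ 2 := by rw [h1]
      _ = (a * Y * G) ^ 2 := by ring
  have hdvd : m ∣ a * Y * G := by
    have : m ^ 2 ∣ (a * Y * G) ^ 2 := ⟨_, hkey.symm⟩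
    exact (Int.pow_dvd_pow_iff (by norm_num)).mp this
  obtain ⟨e, he⟩ := hdvd
  refine ⟨Y, n, e, G, hY, ?_, hn, ?_, h2⟩
  · rw [hs, ← hXY]; nlinarith
  · have hm2 : m ^ 2 ≠ 0 := by positivity
    apply mul_left_cancel₀ hm2
    rw [hkey, he]; ring

/-- The arithmetic hypothesis on `a`, `b` (the local conditions of a complete 2-descent): if `H`
is an odd divisor of `a`, `D` is a divisor of `b` with all prime factors `≡ 1 (mod 4)`, and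
`g k = a² + b²`, such that `H D` is a square modulo every prime factor of `a² + b²`, `H g` is a
square modulo every prime factor `≡ 1 (mod 4)` of `b`, and `D g` is a square modulo every odd prime
factor of `a`, then `H` and `D` are squares and `g = 1` or `k = 1`. -/
def Crit (a b : ℕ) : Prop :=
  ∀ H D g k : ℕ, H ∣ a → H % 2 = 1 → D ∣ b → (∀ p : ℕ, p.Prime → p ∣ D → p % 4 = 1) →
    g * k = a ^ 2 + b ^ 2 →
    (∀ p : ℕ, p.Prime → p ∣ a ^ 2 + b ^ 2 → IsSquare ((H * D : ℕ) : ZMod p)) →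
    (∀ p : ℕ, p.Prime → p ∣ b → p % 4 = 1 → IsSquare ((H * g : ℕ) : ZMod p)) →
    (∀ p : ℕ, p.Prime → p ∣ a → p ≠ 2 → IsSquare ((D * g : ℕ) : ZMod p)) →
    IsSquare H ∧ IsSquare D ∧ (g = 1 ∨ k = 1)

end Pool.Agent.CUBD
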