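import Pool.Agent.CUBD.Step

/-! Excluded ratios for cuboids of type B (MP_c16a21). -/

set_option autoImplicit false

namespace Pool.Agent.CUBD

/-- No positive solutions. -/
theorem no_solution (a b : ℤ) (an bn : ℕ) (han : (an : ℤ) = a) (hbn : (bn : ℤ) = b)
    (ha0 : 0 < a) (hb : 0 < b) (hab : a * b % 4 = 2)
    (hsf : Squarefree (a ^ 2 + b ^ 2)) (hcrit : Crit an bn) :
    ∀ N : ℕ, ∀ s t u v : ℤ, 0 < s → 0 < t → s < N → t ^ 2 + a ^ 2 * s ^ 2 = u ^ 2 →
      t ^ 2 + (a ^ 2 + b ^ 2) * s ^ 2 = v ^ 2 → False := by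
  intro N
  induction N with
  | zero => intro s t u v hs _ hN; simp at hN; omega
  | succ N ih =>
    intro s t u v hs ht hN h1 h2
    obtain ⟨d, hd⟩ : ∃ d : ℤ, d = (Int.gcd s t : ℤ) := ⟨_, rfl⟩
    have hdp : 0 < d := by
      rw [hd]
      have : 0 < Int.gcd s t := Int.gcd_pos_of_ne_zero_left _ hs.ne'
      exact_mod_cast this
    obtain ⟨s1, hs1⟩ : d ∣ s := by rw [hd]; exact Int.gcd_dvd_left s t
    obtain ⟨t1, ht1⟩ : d ∣ t := by rw [hd]; exact Int.gcd_dvd_right s t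
    have hs1p : 0 < s1 := by rw [hs1] at hs; exact (mul_pos_iff_of_pos_left hdp).mp hs
    have ht1p : 0 < t1 := by rw [ht1] at ht; exact (mul_pos_iff_of_pos_left hdp).mp ht
    have hgcd : Int.gcd s1 t1 = 1 := by
      have h3 : Int.gcd (d * s1) (d * t1) = d.natAbs * Int.gcd s1 t1 := Int.gcd_mul_left d s1 t1
      rw [← hs1, ← ht1] at h3
      have h4 : d.natAbs = Int.gcd s t := by rw [hd]; simp
      rw [h4] at h3
      have h5 : 0 < Int.gcd s t := Int.gcd_pos_of_ne_zero_left _ hs.ne'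
      have h6 : Int.gcd s t * 1 = Int.gcd s t * Int.gcd s1 t1 := by rw [mul_one]; exact h3
      exact (Nat.eq_of_mul_eq_mul_left h5 h6).symm
    have hd2 : d ^ 2 ≠ 0 := by positivity
    obtain ⟨u1, hu1⟩ : d ∣ u := by
      have : d ^ 2 ∣ u ^ 2 := ⟨t1 ^ 2 + a ^ 2 * s1 ^ 2, by rw [← h1, hs1, ht1]; ring⟩
      exact (Int.pow_dvd_pow_iff (by norm_num)).mp this
    obtain ⟨v1, hv1⟩ : d ∣ v := by
      have : d ^ 2 ∣ v ^ 2 := ⟨t1 ^ 2 + (a ^ 2 + b ^ 2) * s1 ^ 2, by rw [← h2, hs1, ht1]; ring⟩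
      exact (Int.pow_dvd_pow_iff (by norm_num)).mp this
    have h1' : t1 ^ 2 + a ^ 2 * s1 ^ 2 = |u1| ^ 2 := by
      rw [sq_abs]
      apply mul_left_cancel₀ hd2
      rw [hu1, hs1, ht1] at h1
      linear_combination h1
    have h2' : t1 ^ 2 + (a ^ 2 + b ^ 2) * s1 ^ 2 = |v1| ^ 2 := by
      rw [sq_abs]
      apply mul_left_cancel₀ hd2
      rw [hv1, hs1, ht1] at h2
      linear_combination h2
    have hu0 : 0 < |u1| := by
      rw [abs_pos]; rintro rfl; simp at h1'; nlinarith [sq_nonneg (a * s1), sq_pos_of_pos ht1p]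
    have hv0 : 0 < |v1| := by
      rw [abs_pos]; rintro rfl; simp at h2'
      nlinarith [sq_nonneg (a * s1), sq_nonneg (b * s1), sq_pos_of_pos ht1p]
    obtain ⟨s', t', u', v', k1, k2, k3, k4, k5⟩ := step a b s1 t1 |u1| |v1| an bn han hbn ha0
      hb hab hsf hcrit hs1p hgcd hu0 hv0 h1' h2'
    have hle : s1 ≤ s := by rw [hs1]; nlinarith
    refine ih s' t' u' v' k1 k3 ?_ k4 k5
    push_cast at hN
    omega

/-- A cuboid of type B with edges `x 0`, `x 1`, `x 2`: the body diagonal and exactly two of the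
three face diagonals `y i = √(∑ j ≠ i, x j ^ 2)` are integers. -/
def TypeB (x : Fin 3 → ℕ) : Prop :=
  (∀ i, 0 < x i) ∧ IsSquare (∑ j, x j ^ 2) ∧
    ∃ i, ¬ IsSquare (∑ j ∈ Finset.univ.erase i, x j ^ 2) ∧
      ∀ k, k ≠ i → IsSquare (∑ j ∈ Finset.univ.erase k, x j ^ 2)

/-- The rational `r` occurs for type B. -/
def OccursB (r : ℚ) : Prop :=
  ∃ x : Fin 3 → ℕ, TypeB x ∧ ∃ i j, i ≠ j ∧ (x i : ℚ) / x j = r

lemma pos_of_mod {a b : ℕ} (hab : a * b % 4 = 2) : 0 < a ∧ 0 < b := by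
  constructor
  · rcases Nat.eq_zero_or_pos a with h | h
    · subst h; simp at hab
    · exact h
  · rcases Nat.eq_zero_or_pos b with h | h
    · subst h; simp at hab
    · exact h

lemma coprime_of_sf {a b : ℕ} (hsf : Squarefree (a ^ 2 + b ^ 2)) : Nat.Coprime a b := by
  have h1 : Nat.gcd a b * Nat.gcd a b ∣ a ^ 2 + b ^ 2 := by
    apply Nat.dvd_add
    · rw [pow_two]; exact Nat.mul_dvd_mul (Nat.gcd_dvd_left a b) (Nat.gcd_dvd_left a b)
    · rw [pow_two]; exact Nat.mul_dvd_mul (Nat.gcd_dvd_right a b) (Nat.gcd_dvd_right a b)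
  exact Nat.isUnit_iff.mp (hsf _ h1)

/-- Two of the four conditions are already impossible. -/
theorem no_two (a b : ℕ) (hab : a * b % 4 = 2)
    (hsf : Squarefree (a ^ 2 + b ^ 2)) (hcrit : Crit a b) (x y z : ℕ) (hx : 0 < x)
    (hz : 0 < z) (hxy : b * x = a * y) (h1 : IsSquare (x ^ 2 + z ^ 2))
    (h2 : IsSquare (x ^ 2 + y ^ 2 + z ^ 2)) : False := by
  obtain ⟨ha0, hb0⟩ := pos_of_mod hab
  have hcop : Nat.Coprime a b := coprime_of_sf hsf
  obtain ⟨s, hs⟩ : a ∣ x := by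
    have : a ∣ b * x := ⟨y, hxy⟩
    exact hcop.dvd_of_dvd_mul_left this
  have hy : y = b * s := by
    apply Nat.eq_of_mul_eq_mul_left ha0
    rw [← hxy, hs]; ring
  have hs0 : 0 < s := by
    rcases Nat.eq_zero_or_pos s with h | h
    · subst h; omega
    · exact h
  obtain ⟨u, hu⟩ := h1
  obtain ⟨v, hv⟩ := h2
  have hab' : (a : ℤ) * b % 4 = 2 := by exact_mod_cast hab
  have hsf' : Squarefree ((a : ℤ) ^ 2 + (b : ℤ) ^ 2) := by
    have : Squarefree ((a ^ 2 + b ^ 2 : ℕ) : ℤ) := Int.squarefree_natCast.mpr hsf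
    push_cast at this
    exact this
  refine no_solution (a : ℤ) (b : ℤ) a b rfl rfl (by exact_mod_cast ha0)
    (by exact_mod_cast hb0) hab' hsf' hcrit (s + 1)
    (s : ℤ) (z : ℤ) (u : ℤ) (v : ℤ) (by exact_mod_cast hs0) (by exact_mod_cast hz)
    (by push_cast; omega) ?_ ?_
  · have : z ^ 2 + a ^ 2 * s ^ 2 = u ^ 2 := by
      rw [hs] at hu; nlinarith
    exact_mod_cast this
  · have : z ^ 2 + (a ^ 2 + b ^ 2) * s ^ 2 = v ^ 2 := by
      rw [hs, hy] at hv; nlinarith
    exact_mod_cast this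

lemma not_square (c s : ℕ) (hc : Squarefree c) (hc1 : c ≠ 1) (hs : 0 < s) :
    ¬ IsSquare (c * s ^ 2) := by
  rintro ⟨r, hr⟩
  have h1 : s ^ 2 ∣ r ^ 2 := ⟨c, by rw [pow_two r, ← hr]; ring⟩
  obtain ⟨e, he⟩ := (Nat.pow_dvd_pow_iff (by norm_num)).mp h1
  have h2 : c = e * e := by
    have h3 : s ^ 2 * c = s ^ 2 * (e * e) := by rw [mul_comm, hr, he]; ring
    exact Nat.eq_of_mul_eq_mul_left (by positivity) h3
  have h4 := hc e ⟨1, by rw [h2]; ring⟩
  rw [Nat.isUnit_iff] at h4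
  apply hc1
  rw [h2, h4]

lemma erase_eq : ∀ i j k : Fin 3, i ≠ j → i ≠ k → j ≠ k →
    Finset.univ.erase k = ({i, j} : Finset (Fin 3)) := by decide

lemma third : ∀ i j : Fin 3, i ≠ j → ∃ k : Fin 3, i ≠ k ∧ j ≠ k := by decide

lemma univ_eq : ∀ i j k : Fin 3, i ≠ j → i ≠ k → j ≠ k →
    (Finset.univ : Finset (Fin 3)) = {i, j, k} := by decide

/-- A cuboid of type B in which `b x_i = a x_j`. -/
theorem no_ratio (a b : ℕ) (hab : a * b % 4 = 2)
    (hsf : Squarefree (a ^ 2 + b ^ 2)) (hcrit : Crit a b) (x : Fin 3 → ℕ)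
    (hx : TypeB x) (i j : Fin 3) (hij : i ≠ j) (h : b * x i = a * x j) : False := by
  obtain ⟨hpos, hz, i₀, hn, hsq⟩ := hx
  obtain ⟨k, hik, hjk⟩ := third i j hij
  obtain ⟨ha0, hb0⟩ := pos_of_mod hab
  have hcop : Nat.Coprime a b := coprime_of_sf hsf
  have hface : ¬ IsSquare (x i ^ 2 + x j ^ 2) := by
    obtain ⟨s, hs⟩ : a ∣ x i := by
      have : a ∣ b * x i := ⟨x j, h⟩
      exact hcop.dvd_of_dvd_mul_left this
    have hy : x j = b * s := by
      apply Nat.eq_of_mul_eq_mul_left ha0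
      rw [← h, hs]; ring
    have hs0 : 0 < s := by
      rcases Nat.eq_zero_or_pos s with h' | h'
      · have := hpos i; rw [hs, h'] at this; simp at this
      · exact h'
    have he : x i ^ 2 + x j ^ 2 = (a ^ 2 + b ^ 2) * s ^ 2 := by rw [hs, hy]; ring
    rw [he]
    apply not_square _ _ hsf _ hs0
    have h3 : 0 < a ^ 2 := by positivity
    have h4 : 0 < b ^ 2 := by positivity
    omega
  have hi0 : i₀ = k := by
    by_contra hne
    have := hsq k (Ne.symm hne)
    rw [erase_eq i j k hij hik hjk, Finset.sum_pair hij] at this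
    exact hface this
  have h1 := hsq j (by rw [hi0]; exact hjk)
  rw [erase_eq i k j hik hij hjk.symm, Finset.sum_pair hik] at h1
  rw [univ_eq i j k hij hik hjk, Finset.sum_insert (by simp [hij, hik]), Finset.sum_pair hjk] at hz
  exact no_two a b hab hsf hcrit (x i) (x j) (x k) (hpos i) (hpos k) h h1
    (by rw [← add_assoc] at hz; exact hz)

/-- The ratios `a/b`, `b/a` do not occur for type B; moreover no cuboid with two edges `x`, `y` in
the ratio `a : b` has an integral body diagonal and an integral diagonal of the face that contains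
the edge `x` but not `y`. -/
def Excluded (a b : ℕ) : Prop :=
  ¬ OccursB ((a : ℚ) / b) ∧ ¬ OccursB ((b : ℚ) / a) ∧
    ∀ x y z : ℕ, 0 < x → 0 < y → 0 < z → b * x = a * y →
      ¬ (IsSquare (x ^ 2 + z ^ 2) ∧ IsSquare (x ^ 2 + y ^ 2 + z ^ 2))

/-- The criterion. -/
theorem excluded (a b : ℕ) (hab : a * b % 4 = 2)
    (hsf : Squarefree (a ^ 2 + b ^ 2)) (hcrit : Crit a b) : Excluded a b := by
  obtain ⟨ha, hb⟩ := pos_of_mod hab
  have ha0 : (a : ℚ) ≠ 0 := by positivity
  have hb0 : (b : ℚ) ≠ 0 := by positivity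
  refine ⟨?_, ?_, fun x y z hx _ hz hxy hh => no_two a b hab hsf hcrit x y z hx hz hxy hh.1 hh.2⟩
  · rintro ⟨x, hx, i, j, hij, h⟩
    have hj : (x j : ℚ) ≠ 0 := by
      have := hx.1 j
      positivity
    rw [div_eq_div_iff hj hb0] at h
    have h' : b * x i = a * x j := by
      have : (b : ℚ) * x i = a * x j := by linarith
      exact_mod_cast this
    exact no_ratio a b hab hsf hcrit x hx i j hij h'
  · rintro ⟨x, hx, i, j, hij, h⟩
    have hj : (x j : ℚ) ≠ 0 := by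
      have := hx.1 j
      positivity
    rw [div_eq_div_iff hj ha0] at h
    have h' : b * x j = a * x i := by
      have : (b : ℚ) * x j = a * x i := by linarith
      exact_mod_cast this
    exact no_ratio a b hab hsf hcrit x hx j i hij.symm h'

/-- The criterion for a prime `a² + b²`. -/
def CritPrime (a b : ℕ) : Prop :=
  (∀ H : ℕ, H ∣ a → H % 2 = 1 →
      (∀ p : ℕ, p.Prime → p ∣ b → p % 4 = 1 → IsSquare (H : ZMod p)) → IsSquare H) ∧
    ∀ D : ℕ, D ∣ b → (∀ p : ℕ, p.Prime → p ∣ D → p % 4 = 1) →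
      (∀ p : ℕ, p.Prime → p ∣ a → p ≠ 2 → IsSquare (D : ZMod p)) → IsSquare D

lemma sq_cancel (p : ℕ) [Fact p.Prime] (H e : ZMod p) (he : e ≠ 0) (h : IsSquare (H * e ^ 2)) :
    IsSquare H := by
  obtain ⟨r, hr⟩ := h
  exact ⟨r / e, by field_simp; linear_combination hr⟩

lemma crit_of_prime (a b : ℕ) (hc : (a ^ 2 + b ^ 2).Prime) (h : CritPrime a b) : Crit a b := by
  intro H D g k hHa hHo hDb hD4 hgk _ hH hD
  have hcop : Nat.Coprime a b := coprime_of_sf hc.prime.irreducible.squarefree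
  have hg : g = 1 ∨ g = a ^ 2 + b ^ 2 := hc.eq_one_or_self_of_dvd g ⟨k, hgk.symm⟩
  refine ⟨h.1 H hHa hHo ?_, h.2 D hDb hD4 ?_, ?_⟩
  · intro p hp hpb hp4
    have : Fact p.Prime := ⟨hp⟩
    have h3 := hH p hp hpb hp4
    have hbz : (b : ZMod p) = 0 := (ZMod.natCast_eq_zero_iff b p).mpr hpb
    rcases hg with hg | hg
    · rw [hg, mul_one] at h3; exact h3
    · rw [hg] at h3
      push_cast at h3
      rw [hbz] at h3
      refine sq_cancel p (H : ZMod p) (a : ZMod p) ?_ (by convert h3 using 1; ring)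
      intro h0
      have h4 := (ZMod.natCast_eq_zero_iff a p).mp h0
      have := Nat.dvd_gcd h4 hpb
      rw [hcop] at this
      exact hp.one_lt.ne' (Nat.dvd_one.mp this)
  · intro p hp hpa hp2
    have : Fact p.Prime := ⟨hp⟩
    have h3 := hD p hp hpa hp2
    have haz : (a : ZMod p) = 0 := (ZMod.natCast_eq_zero_iff a p).mpr hpa
    rcases hg with hg | hg
    · rw [hg, mul_one] at h3; exact h3
    · rw [hg] at h3
      push_cast at h3
      rw [haz] at h3
      refine sq_cancel p (D : ZMod p) (b : ZMod p) ?_ (by convert h3 using 1; ring)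
      intro h0
      have h4 := (ZMod.natCast_eq_zero_iff b p).mp h0
      have := Nat.dvd_gcd hpa h4
      rw [hcop] at this
      exact hp.one_lt.ne' (Nat.dvd_one.mp this)
  · rcases hg with hg | hg
    · exact Or.inl hg
    · right
      rw [hg] at hgk
      exact Nat.eq_of_mul_eq_mul_left hc.pos (by rw [hgk, mul_one])

lemma family1 (a b : ℕ) (ha : a = 1 ∨ a = 2) (hb : ∀ p : ℕ, p.Prime → p ∣ b → p % 4 ≠ 1) :
    CritPrime a b := by
  constructor
  · intro H hH hHo _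
    have : H = 1 := by
      rcases ha with h | h
      · rw [h] at hH; exact Nat.dvd_one.mp hH
      · rw [h] at hH
        rcases (Nat.dvd_prime Nat.prime_two).mp hH with h3 | h3
        · exact h3
        · omega
    rw [this]; exact ⟨1, rfl⟩
  · intro D hD hD4 _
    have : D = 1 := by
      by_contra hne
      obtain ⟨p, hp, hpd⟩ := Nat.exists_prime_and_dvd hne
      exact hb p hp (hpd.trans hD) (hD4 p hp hpd)
    rw [this]; exact ⟨1, rfl⟩

lemma family2 (a b r l k : ℕ) (hr : r.Prime) (hr2 : r ≠ 2) (ha : a = r ∨ a = 2 * r)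
    (hl : l.Prime) (hl4 : l % 4 = 1) (hb : b = l * k)
    (hk : ∀ p : ℕ, p.Prime → p ∣ k → p % 4 ≠ 1) (hrl : ¬ IsSquare (r : ZMod l)) :
    CritPrime a b := by
  constructor
  · intro H hH hHo hsq
    have h1 : H ∣ r := by
      rcases ha with h | h
      · rw [h] at hH; exact hH
      · rw [h] at hH
        have hc : Nat.Coprime H 2 :=
          ((Nat.Prime.coprime_iff_not_dvd Nat.prime_two).mpr (by omega)).symm
        exact hc.dvd_of_dvd_mul_left hH
    rcases (Nat.dvd_prime hr).mp h1 with h3 | h3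
    · rw [h3]; exact ⟨1, rfl⟩
    · exfalso
      apply hrl
      rw [← h3]
      exact hsq l hl (by rw [hb]; exact dvd_mul_right l k) hl4
  · intro D hD hD4 hsq
    have hc : Nat.Coprime D k := by
      rw [Nat.coprime_iff_gcd_eq_one]
      by_contra hne
      obtain ⟨p, hp, hpd⟩ := Nat.exists_prime_and_dvd hne
      exact hk p hp (hpd.trans (Nat.gcd_dvd_right D k))
        (hD4 p hp (hpd.trans (Nat.gcd_dvd_left D k)))
    have h1 : D ∣ l := hc.dvd_of_dvd_mul_right (by rw [← hb]; exact hD)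
    rcases (Nat.dvd_prime hl).mp h1 with h3 | h3
    · rw [h3]; exact ⟨1, rfl⟩
    · exfalso
      apply hrl
      have : Fact l.Prime := ⟨hl⟩
      have : Fact r.Prime := ⟨hr⟩
      have h4 : IsSquare (l : ZMod r) := by
        rw [← h3]
        apply hsq r hr _ hr2
        rcases ha with h | h
        · rw [h]
        · rw [h]; exact dvd_mul_left r 2
      exact (ZMod.exists_sq_eq_prime_iff_of_mod_four_eq_one hl4 hr2).mpr h4

/-- The criterion, its form for a prime `a² + b²`, and two families. -/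
theorem main :
    (∀ a b : ℕ, a * b % 4 = 2 → Squarefree (a ^ 2 + b ^ 2) → Crit a b → Excluded a b) ∧
      (∀ a b : ℕ, a * b % 4 = 2 → (a ^ 2 + b ^ 2).Prime → CritPrime a b → Excluded a b) ∧
      (∀ a b : ℕ, (a = 1 ∨ a = 2) → (∀ p : ℕ, p.Prime → p ∣ b → p % 4 ≠ 1) → CritPrime a b) ∧
      ∀ a b r l k : ℕ, r.Prime → r ≠ 2 → (a = r ∨ a = 2 * r) → l.Prime → l % 4 = 1 →
        b = l * k → (∀ p : ℕ, p.Prime → p ∣ k → p % 4 ≠ 1) → ¬ IsSquare (r : ZMod l) →
        CritPrime a b :=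
  ⟨fun a b hab hsf hcrit => excluded a b hab hsf hcrit, fun a b hab hc h =>
    excluded a b hab hc.prime.irreducible.squarefree (crit_of_prime a b hc h),
    family1, family2⟩

end Pool.Agent.CUBD
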