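import Pool.Agent.CUBD.StepTwo
import Pool.Agent.CUBD.Main

/-! Excluded ratios for cuboids of type B, `4 ∤ a b` (MP_c16a21). -/

set_option autoImplicit false

namespace Pool.Agent.CUBD

lemma pos_of_not4 {a b : ℕ} (hab : ¬ 4 ∣ a * b) : 0 < a ∧ 0 < b := by
  constructor
  · rcases Nat.eq_zero_or_pos a with h | h
    · subst h; simp at hab
    · exact h
  · rcases Nat.eq_zero_or_pos b with h | h
    · subst h; simp at hab
    · exact h

/-- No positive solutions. -/
theorem no_solution2 (a b : ℤ) (an bn : ℕ) (han : (an : ℤ) = a) (hbn : (bn : ℤ) = b)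
    (ha0 : 0 < a) (hb : 0 < b) (hab : ¬ (4 : ℤ) ∣ a * b)
    (hsf : Squarefree (a ^ 2 + b ^ 2)) (hcrit : Crit an bn) :
    ∀ N : ℕ, ∀ s t u v : ℤ, 0 < s → 0 < t → s < N → t ^ 2 + a ^ 2 * s ^ 2 = u ^ 2 →
      t ^ 2 + (a ^ 2 + b ^ 2) * s ^ 2 = v ^ 2 → False := by
  intro N
  induction N with
  | zero => intro s t u v hs _ hN; simp at hN; omega
  | succ N ih =>
    intro s t u v hs ht hN h1 h2
    obtain ⟨d, hd⟩ : ∃ d : ℤ, d = (Int.gcd s t : ℤ) := ⟨_, rfl⟩
    have hdp : 0 < d := by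
      rw [hd]
      have : 0 < Int.gcd s t := Int.gcd_pos_of_ne_zero_left _ hs.ne'
      exact_mod_cast this
    obtain ⟨s1, hs1⟩ : d ∣ s := by rw [hd]; exact Int.gcd_dvd_left s t
    obtain ⟨t1, ht1⟩ : d ∣ t := by rw [hd]; exact Int.gcd_dvd_right s t
    have hs1p : 0 < s1 := by rw [hs1] at hs; exact (mul_pos_iff_of_pos_left hdp).mp hs
    have ht1p : 0 < t1 := by rw [ht1] at ht; exact (mul_pos_iff_of_pos_left hdp).mp ht
    have hgcd : Int.gcd s1 t1 = 1 := by
      have h3 : Int.gcd (d * s1) (d * t1) = d.natAbs * Int.gcd s1 t1 := Int.gcd_mul_left d s1 t1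
      rw [← hs1, ← ht1] at h3
      have h4 : d.natAbs = Int.gcd s t := by rw [hd]; simp
      rw [h4] at h3
      have h5 : 0 < Int.gcd s t := Int.gcd_pos_of_ne_zero_left _ hs.ne'
      have h6 : Int.gcd s t * 1 = Int.gcd s t * Int.gcd s1 t1 := by rw [mul_one]; exact h3
      exact (Nat.eq_of_mul_eq_mul_left h5 h6).symm
    have hd2 : d ^ 2 ≠ 0 := by positivity
    obtain ⟨u1, hu1⟩ : d ∣ u := by
      have : d ^ 2 ∣ u ^ 2 := ⟨t1 ^ 2 + a ^ 2 * s1 ^ 2, by rw [← h1, hs1, ht1]; ring⟩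
      exact (Int.pow_dvd_pow_iff (by norm_num)).mp this
    obtain ⟨v1, hv1⟩ : d ∣ v := by
      have : d ^ 2 ∣ v ^ 2 := ⟨t1 ^ 2 + (a ^ 2 + b ^ 2) * s1 ^ 2, by rw [← h2, hs1, ht1]; ring⟩
      exact (Int.pow_dvd_pow_iff (by norm_num)).mp this
    have h1' : t1 ^ 2 + a ^ 2 * s1 ^ 2 = |u1| ^ 2 := by
      rw [sq_abs]
      apply mul_left_cancel₀ hd2
      rw [hu1, hs1, ht1] at h1
      linear_combination h1
    have h2' : t1 ^ 2 + (a ^ 2 + b ^ 2) * s1 ^ 2 = |v1| ^ 2 := by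
      rw [sq_abs]
      apply mul_left_cancel₀ hd2
      rw [hv1, hs1, ht1] at h2
      linear_combination h2
    have hu0 : 0 < |u1| := by
      rw [abs_pos]; rintro rfl; simp at h1'; nlinarith [sq_nonneg (a * s1), sq_pos_of_pos ht1p]
    have hv0 : 0 < |v1| := by
      rw [abs_pos]; rintro rfl; simp at h2'
      nlinarith [sq_nonneg (a * s1), sq_nonneg (b * s1), sq_pos_of_pos ht1p]
    obtain ⟨s', t', u', v', k1, k2, k3, k4, k5⟩ := step2 a b s1 t1 |u1| |v1| an bn han hbn ha0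
      hb hab hsf hcrit hs1p hgcd hu0 hv0 h1' h2'
    have hle : s1 ≤ s := by rw [hs1]; nlinarith
    refine ih s' t' u' v' k1 k3 ?_ k4 k5
    push_cast at hN
    omega

/-- Two of the four conditions are already impossible. -/
theorem no_two2 (a b : ℕ) (hab : ¬ 4 ∣ a * b)
    (hsf : Squarefree (a ^ 2 + b ^ 2)) (hcrit : Crit a b) (x y z : ℕ) (hx : 0 < x)
    (hz : 0 < z) (hxy : b * x = a * y) (h1 : IsSquare (x ^ 2 + z ^ 2))
    (h2 : IsSquare (x ^ 2 + y ^ 2 + z ^ 2)) : False := by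
  obtain ⟨ha0, hb0⟩ := pos_of_not4 hab
  have hcop : Nat.Coprime a b := coprime_of_sf hsf
  obtain ⟨s, hs⟩ : a ∣ x := by
    have : a ∣ b * x := ⟨y, hxy⟩
    exact hcop.dvd_of_dvd_mul_left this
  have hy : y = b * s := by
    apply Nat.eq_of_mul_eq_mul_left ha0
    rw [← hxy, hs]; ring
  have hs0 : 0 < s := by
    rcases Nat.eq_zero_or_pos s with h | h
    · subst h; omega
    · exact h
  obtain ⟨u, hu⟩ := h1
  obtain ⟨v, hv⟩ := h2
  have hab' : ¬ (4 : ℤ) ∣ (a : ℤ) * b := by exact_mod_cast hab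
  have hsf' : Squarefree ((a : ℤ) ^ 2 + (b : ℤ) ^ 2) := by
    have : Squarefree ((a ^ 2 + b ^ 2 : ℕ) : ℤ) := Int.squarefree_natCast.mpr hsf
    push_cast at this
    exact this
  refine no_solution2 (a : ℤ) (b : ℤ) a b rfl rfl (by exact_mod_cast ha0)
    (by exact_mod_cast hb0) hab' hsf' hcrit (s + 1)
    (s : ℤ) (z : ℤ) (u : ℤ) (v : ℤ) (by exact_mod_cast hs0) (by exact_mod_cast hz)
    (by push_cast; omega) ?_ ?_
  · have : z ^ 2 + a ^ 2 * s ^ 2 = u ^ 2 := by
      rw [hs] at hu; nlinarith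
    exact_mod_cast this
  · have : z ^ 2 + (a ^ 2 + b ^ 2) * s ^ 2 = v ^ 2 := by
      rw [hs, hy] at hv; nlinarith
    exact_mod_cast this

/-- A cuboid of type B in which `b x_i = a x_j`. -/
theorem no_ratio2 (a b : ℕ) (hab : ¬ 4 ∣ a * b)
    (hsf : Squarefree (a ^ 2 + b ^ 2)) (hcrit : Crit a b) (x : Fin 3 → ℕ)
    (hx : TypeB x) (i j : Fin 3) (hij : i ≠ j) (h : b * x i = a * x j) : False := by
  obtain ⟨hpos, hz, i₀, hn, hsq⟩ := hx
  obtain ⟨k, hik, hjk⟩ := third i j hij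
  obtain ⟨ha0, hb0⟩ := pos_of_not4 hab
  have hcop : Nat.Coprime a b := coprime_of_sf hsf
  have hface : ¬ IsSquare (x i ^ 2 + x j ^ 2) := by
    obtain ⟨s, hs⟩ : a ∣ x i := by
      have : a ∣ b * x i := ⟨x j, h⟩
      exact hcop.dvd_of_dvd_mul_left this
    have hy : x j = b * s := by
      apply Nat.eq_of_mul_eq_mul_left ha0
      rw [← h, hs]; ring
    have hs0 : 0 < s := by
      rcases Nat.eq_zero_or_pos s with h' | h'
      · have := hpos i; rw [hs, h'] at this; simp at this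
      · exact h'
    have he : x i ^ 2 + x j ^ 2 = (a ^ 2 + b ^ 2) * s ^ 2 := by rw [hs, hy]; ring
    rw [he]
    apply not_square _ _ hsf _ hs0
    have h3 : 0 < a ^ 2 := by positivity
    have h4 : 0 < b ^ 2 := by positivity
    omega
  have hi0 : i₀ = k := by
    by_contra hne
    have := hsq k (Ne.symm hne)
    rw [erase_eq i j k hij hik hjk, Finset.sum_pair hij] at this
    exact hface this
  have h1 := hsq j (by rw [hi0]; exact hjk)
  rw [erase_eq i k j hik hij hjk.symm, Finset.sum_pair hik] at h1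
  rw [univ_eq i j k hij hik hjk, Finset.sum_insert (by simp [hij, hik]), Finset.sum_pair hjk] at hz
  exact no_two2 a b hab hsf hcrit (x i) (x j) (x k) (hpos i) (hpos k) h h1
    (by rw [← add_assoc] at hz; exact hz)

/-- The criterion. -/
theorem excluded2 (a b : ℕ) (hab : ¬ 4 ∣ a * b)
    (hsf : Squarefree (a ^ 2 + b ^ 2)) (hcrit : Crit a b) : Excluded a b := by
  obtain ⟨ha, hb⟩ := pos_of_not4 hab
  have ha0 : (a : ℚ) ≠ 0 := by positivity
  have hb0 : (b : ℚ) ≠ 0 := by positivity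
  refine ⟨?_, ?_, fun x y z hx _ hz hxy hh => no_two2 a b hab hsf hcrit x y z hx hz hxy hh.1 hh.2⟩
  · rintro ⟨x, hx, i, j, hij, h⟩
    have hj : (x j : ℚ) ≠ 0 := by
      have := hx.1 j
      positivity
    rw [div_eq_div_iff hj hb0] at h
    have h' : b * x i = a * x j := by
      have : (b : ℚ) * x i = a * x j := by linarith
      exact_mod_cast this
    exact no_ratio2 a b hab hsf hcrit x hx i j hij h'
  · rintro ⟨x, hx, i, j, hij, h⟩
    have hj : (x j : ℚ) ≠ 0 := by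
      have := hx.1 j
      positivity
    rw [div_eq_div_iff hj ha0] at h
    have h' : b * x j = a * x i := by
      have : (b : ℚ) * x j = a * x i := by linarith
      exact_mod_cast this
    exact no_ratio2 a b hab hsf hcrit x hx j i hij.symm h'

/-- The third family: `a` a prime `≡ ±3 (mod 8)`, `b` odd without prime factors `≡ 1 (mod 4)`,
`a² + b² = 2 l` with `l` prime. -/
lemma family3 (p b l : ℕ) (hp : p.Prime) (hp8 : p % 8 = 3 ∨ p % 8 = 5) (hpb : Nat.Coprime p b)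
    (hb2 : b % 2 = 1) (hb : ∀ q : ℕ, q.Prime → q ∣ b → q % 4 ≠ 1) (hl : l.Prime)
    (h2l : 2 * l = p ^ 2 + b ^ 2) : Crit p b := by
  have : Fact p.Prime := ⟨hp⟩
  have : Fact l.Prime := ⟨hl⟩
  have hp2 : p ≠ 2 := by omega
  have hl4 : l % 4 = 1 := by
    have h1 : p ^ 2 % 8 = 1 := by
      rcases hp8 with h | h <;> simp [Nat.pow_mod, h]
    have h2 : b ^ 2 % 8 = 1 := by
      have : b % 8 = 1 ∨ b % 8 = 3 ∨ b % 8 = 5 ∨ b % 8 = 7 := by omega
      rcases this with h | h | h | h <;> simp [Nat.pow_mod, h]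
    omega
  have hbz : (b : ZMod p) ≠ 0 := by
    intro h0
    have h4 := (ZMod.natCast_eq_zero_iff b p).mp h0
    have := Nat.dvd_gcd (dvd_refl p) h4
    rw [hpb] at this
    exact hp.one_lt.ne' (Nat.dvd_one.mp this)
  have h2ns : ¬ IsSquare (2 : ZMod p) := by
    rw [ZMod.exists_sq_eq_two_iff hp2]
    omega
  have hrel : (2 : ZMod p) * (l : ZMod p) = (b : ZMod p) ^ 2 := by
    have := congrArg (fun x : ℕ => (x : ZMod p)) h2l
    push_cast at this
    rw [this]
    simp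
  have hlns : ¬ IsSquare (l : ZMod p) := by
    rintro ⟨r, hr⟩
    have hr0 : r ≠ 0 := by
      rintro rfl
      rw [hr] at hrel
      apply hbz
      have : (b : ZMod p) ^ 2 = 0 := by rw [← hrel]; ring
      exact pow_eq_zero_iff (two_ne_zero) |>.mp this
    apply h2ns
    refine ⟨b / r, ?_⟩
    field_simp
    rw [← hrel, hr]; ring
  intro H D g k hHa hHo hDb hD4 hgk hHD _ hDg
  have hD1 : D = 1 := by
    by_contra hne
    obtain ⟨q, hq, hqd⟩ := Nat.exists_prime_and_dvd hne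
    exact hb q hq (hqd.trans hDb) (hD4 q hq hqd)
  subst hD1
  have hgs : IsSquare (g : ZMod p) := by
    have := hDg p hp (dvd_refl p) hp2
    rw [one_mul] at this
    exact this
  refine ⟨?_, ⟨1, rfl⟩, ?_⟩
  · rcases (Nat.dvd_prime hp).mp hHa with h | h
    · rw [h]; exact ⟨1, rfl⟩
    · exfalso
      have h3 := hHD l hl ⟨2, by rw [← h2l]; ring⟩
      rw [mul_one, h] at h3
      exact hlns ((ZMod.exists_sq_eq_prime_iff_of_mod_four_eq_one hl4 hp2).mp h3)
  · have h5 : l ∣ g * k := ⟨2, by rw [hgk, ← h2l]; ring⟩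
    rcases hl.dvd_mul.mp h5 with ⟨g', hg'⟩ | ⟨k', hk'⟩
    · have h6 : g' * k = 2 := by
        apply Nat.eq_of_mul_eq_mul_left hl.pos
        rw [← mul_assoc, ← hg', hgk, ← h2l]; ring
      rcases (Nat.dvd_prime Nat.prime_two).mp ⟨k, h6.symm⟩ with h | h
      · exfalso
        rw [h, mul_one] at hg'
        rw [hg'] at hgs
        exact hlns hgs
      · right
        rw [h] at h6
        omega
    · have h6 : g * k' = 2 := by
        apply Nat.eq_of_mul_eq_mul_left hl.pos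
        rw [show l * (g * k') = g * (l * k') by ring, ← hk', hgk, ← h2l]; ring
      rcases (Nat.dvd_prime Nat.prime_two).mp ⟨k', h6.symm⟩ with h | h
      · exact Or.inl h
      · exfalso
        rw [h] at hgs
        exact h2ns (by exact_mod_cast hgs)

/-- The criterion, its form for a prime `a² + b²`, and three families. -/
theorem main2 :
    (∀ a b : ℕ, ¬ 4 ∣ a * b → Squarefree (a ^ 2 + b ^ 2) → Crit a b → Excluded a b) ∧
      (∀ a b : ℕ, ¬ 4 ∣ a * b → (a ^ 2 + b ^ 2).Prime → CritPrime a b → Excluded a b) ∧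
      (∀ a b : ℕ, (a = 1 ∨ a = 2) → (∀ p : ℕ, p.Prime → p ∣ b → p % 4 ≠ 1) → CritPrime a b) ∧
      (∀ a b r l k : ℕ, r.Prime → r ≠ 2 → (a = r ∨ a = 2 * r) → l.Prime → l % 4 = 1 →
        b = l * k → (∀ p : ℕ, p.Prime → p ∣ k → p % 4 ≠ 1) → ¬ IsSquare (r : ZMod l) →
        CritPrime a b) ∧
      ∀ p b l : ℕ, p.Prime → (p % 8 = 3 ∨ p % 8 = 5) → b % 2 = 1 →
        (∀ q : ℕ, q.Prime → q ∣ b → q % 4 ≠ 1) → l.Prime → 2 * l = p ^ 2 + b ^ 2 →
        Excluded p b := by
  refine ⟨fun a b hab hsf hcrit => excluded2 a b hab hsf hcrit, fun a b hab hc h =>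
    excluded2 a b hab hc.prime.irreducible.squarefree (crit_of_prime a b hc h),
    family1, family2, ?_⟩
  intro p b l hp hp8 hb2 hb hl h2l
  have hl2 : l ≠ 2 := by
    rintro rfl
    have h1 : 3 ≤ p := by
      have := hp.two_le
      omega
    nlinarith
  have hsf : Squarefree (p ^ 2 + b ^ 2) := by
    rw [← h2l, Nat.squarefree_mul ((Nat.coprime_primes Nat.prime_two hl).mpr (Ne.symm hl2))]
    exact ⟨Nat.prime_two.prime.irreducible.squarefree, hl.prime.irreducible.squarefree⟩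
  have hab : ¬ 4 ∣ p * b := by
    intro h
    have h2 : 2 ∣ p * b := (by norm_num : 2 ∣ 4).trans h
    rcases Nat.prime_two.dvd_mul.mp h2 with h3 | h3 <;> omega
  exact excluded2 p b hab hsf (family3 p b l hp hp8 (coprime_of_sf hsf) hb2 hb hl h2l)

end Pool.Agent.CUBD
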