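import Pool.Agent.CUBD.StepThree
import Pool.Agent.CUBD.MainTwo

/-! Excluded ratios for cuboids of type B, `4 ∤ b`, `16 ∤ a` (MP_c16a21). -/

set_option autoImplicit false

namespace Pool.Agent.CUBD

lemma pos_of_not {a b : ℕ} (h4b : ¬ 4 ∣ b) (h16 : ¬ 16 ∣ a) : 0 < a ∧ 0 < b := by
  constructor
  · rcases Nat.eq_zero_or_pos a with h | h
    · subst h; simp at h16
    · exact h
  · rcases Nat.eq_zero_or_pos b with h | h
    · subst h; simp at h4b
    · exact h

/-- No positive solutions. -/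
theorem no_solution3 (a b : ℤ) (an bn : ℕ) (han : (an : ℤ) = a) (hbn : (bn : ℤ) = b)
    (ha0 : 0 < a) (hb : 0 < b) (h4b : ¬ (4 : ℤ) ∣ b) (h16 : ¬ (16 : ℤ) ∣ a)
    (hsf : Squarefree (a ^ 2 + b ^ 2)) (hcrit : Crit3 an bn) :
    ∀ N : ℕ, ∀ s t u v : ℤ, 0 < s → 0 < t → s < N → t ^ 2 + a ^ 2 * s ^ 2 = u ^ 2 →
      t ^ 2 + (a ^ 2 + b ^ 2) * s ^ 2 = v ^ 2 → False := by
  intro N
  induction N with
  | zero => intro s t u v hs _ hN; simp at hN; omega
  | succ N ih =>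
    intro s t u v hs ht hN h1 h2
    obtain ⟨d, hd⟩ : ∃ d : ℤ, d = (Int.gcd s t : ℤ) := ⟨_, rfl⟩
    have hdp : 0 < d := by
      rw [hd]
      have : 0 < Int.gcd s t := Int.gcd_pos_of_ne_zero_left _ hs.ne'
      exact_mod_cast this
    obtain ⟨s1, hs1⟩ : d ∣ s := by rw [hd]; exact Int.gcd_dvd_left s t
    obtain ⟨t1, ht1⟩ : d ∣ t := by rw [hd]; exact Int.gcd_dvd_right s t
    have hs1p : 0 < s1 := by rw [hs1] at hs; exact (mul_pos_iff_of_pos_left hdp).mp hs
    have ht1p : 0 < t1 := by rw [ht1] at ht; exact (mul_pos_iff_of_pos_left hdp).mp ht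
    have hgcd : Int.gcd s1 t1 = 1 := by
      have h3 : Int.gcd (d * s1) (d * t1) = d.natAbs * Int.gcd s1 t1 := Int.gcd_mul_left d s1 t1
      rw [← hs1, ← ht1] at h3
      have h4 : d.natAbs = Int.gcd s t := by rw [hd]; simp
      rw [h4] at h3
      have h5 : 0 < Int.gcd s t := Int.gcd_pos_of_ne_zero_left _ hs.ne'
      have h6 : Int.gcd s t * 1 = Int.gcd s t * Int.gcd s1 t1 := by rw [mul_one]; exact h3
      exact (Nat.eq_of_mul_eq_mul_left h5 h6).symm
    have hd2 : d ^ 2 ≠ 0 := by positivity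
    obtain ⟨u1, hu1⟩ : d ∣ u := by
      have : d ^ 2 ∣ u ^ 2 := ⟨t1 ^ 2 + a ^ 2 * s1 ^ 2, by rw [← h1, hs1, ht1]; ring⟩
      exact (Int.pow_dvd_pow_iff (by norm_num)).mp this
    obtain ⟨v1, hv1⟩ : d ∣ v := by
      have : d ^ 2 ∣ v ^ 2 := ⟨t1 ^ 2 + (a ^ 2 + b ^ 2) * s1 ^ 2, by rw [← h2, hs1, ht1]; ring⟩
      exact (Int.pow_dvd_pow_iff (by norm_num)).mp this
    have h1' : t1 ^ 2 + a ^ 2 * s1 ^ 2 = |u1| ^ 2 := by
      rw [sq_abs]
      apply mul_left_cancel₀ hd2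
      rw [hu1, hs1, ht1] at h1
      linear_combination h1
    have h2' : t1 ^ 2 + (a ^ 2 + b ^ 2) * s1 ^ 2 = |v1| ^ 2 := by
      rw [sq_abs]
      apply mul_left_cancel₀ hd2
      rw [hv1, hs1, ht1] at h2
      linear_combination h2
    have hu0 : 0 < |u1| := by
      rw [abs_pos]; rintro rfl; simp at h1'; nlinarith [sq_nonneg (a * s1), sq_pos_of_pos ht1p]
    have hv0 : 0 < |v1| := by
      rw [abs_pos]; rintro rfl; simp at h2'
      nlinarith [sq_nonneg (a * s1), sq_nonneg (b * s1), sq_pos_of_pos ht1p]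
    obtain ⟨s', t', u', v', k1, k2, k3, k4, k5⟩ := step3 a b s1 t1 |u1| |v1| an bn han hbn ha0
      hb h4b h16 hsf hcrit hs1p ht1p hgcd hu0 hv0 h1' h2'
    have hle : s1 ≤ s := by rw [hs1]; nlinarith
    refine ih s' t' u' v' k1 k3 ?_ k4 k5
    push_cast at hN
    omega

/-- Two of the four conditions are already impossible. -/
theorem no_two3 (a b : ℕ) (h4b : ¬ 4 ∣ b) (h16 : ¬ 16 ∣ a)
    (hsf : Squarefree (a ^ 2 + b ^ 2)) (hcrit : Crit3 a b) (x y z : ℕ) (hx : 0 < x)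
    (hz : 0 < z) (hxy : b * x = a * y) (h1 : IsSquare (x ^ 2 + z ^ 2))
    (h2 : IsSquare (x ^ 2 + y ^ 2 + z ^ 2)) : False := by
  obtain ⟨ha0, hb0⟩ := pos_of_not h4b h16
  have hcop : Nat.Coprime a b := coprime_of_sf hsf
  obtain ⟨s, hs⟩ : a ∣ x := by
    have : a ∣ b * x := ⟨y, hxy⟩
    exact hcop.dvd_of_dvd_mul_left this
  have hy : y = b * s := by
    apply Nat.eq_of_mul_eq_mul_left ha0
    rw [← hxy, hs]; ring
  have hs0 : 0 < s := by
    rcases Nat.eq_zero_or_pos s with h | h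
    · subst h; omega
    · exact h
  obtain ⟨u, hu⟩ := h1
  obtain ⟨v, hv⟩ := h2
  have h4b' : ¬ (4 : ℤ) ∣ (b : ℤ) := by exact_mod_cast h4b
  have h16' : ¬ (16 : ℤ) ∣ (a : ℤ) := by exact_mod_cast h16
  have hsf' : Squarefree ((a : ℤ) ^ 2 + (b : ℤ) ^ 2) := by
    have : Squarefree ((a ^ 2 + b ^ 2 : ℕ) : ℤ) := Int.squarefree_natCast.mpr hsf
    push_cast at this
    exact this
  refine no_solution3 (a : ℤ) (b : ℤ) a b rfl rfl (by exact_mod_cast ha0)
    (by exact_mod_cast hb0) h4b' h16' hsf' hcrit (s + 1)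
    (s : ℤ) (z : ℤ) (u : ℤ) (v : ℤ) (by exact_mod_cast hs0) (by exact_mod_cast hz)
    (by push_cast; omega) ?_ ?_
  · have : z ^ 2 + a ^ 2 * s ^ 2 = u ^ 2 := by
      rw [hs] at hu; nlinarith
    exact_mod_cast this
  · have : z ^ 2 + (a ^ 2 + b ^ 2) * s ^ 2 = v ^ 2 := by
      rw [hs, hy] at hv; nlinarith
    exact_mod_cast this

/-- A cuboid of type B in which `b x_i = a x_j`. -/
theorem no_ratio3 (a b : ℕ) (h4b : ¬ 4 ∣ b) (h16 : ¬ 16 ∣ a)
    (hsf : Squarefree (a ^ 2 + b ^ 2)) (hcrit : Crit3 a b) (x : Fin 3 → ℕ)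
    (hx : TypeB x) (i j : Fin 3) (hij : i ≠ j) (h : b * x i = a * x j) : False := by
  obtain ⟨hpos, hz, i₀, hn, hsq⟩ := hx
  obtain ⟨k, hik, hjk⟩ := third i j hij
  obtain ⟨ha0, hb0⟩ := pos_of_not h4b h16
  have hcop : Nat.Coprime a b := coprime_of_sf hsf
  have hface : ¬ IsSquare (x i ^ 2 + x j ^ 2) := by
    obtain ⟨s, hs⟩ : a ∣ x i := by
      have : a ∣ b * x i := ⟨x j, h⟩
      exact hcop.dvd_of_dvd_mul_left this
    have hy : x j = b * s := by
      apply Nat.eq_of_mul_eq_mul_left ha0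
      rw [← h, hs]; ring
    have hs0 : 0 < s := by
      rcases Nat.eq_zero_or_pos s with h' | h'
      · have := hpos i; rw [hs, h'] at this; simp at this
      · exact h'
    have he : x i ^ 2 + x j ^ 2 = (a ^ 2 + b ^ 2) * s ^ 2 := by rw [hs, hy]; ring
    rw [he]
    apply not_square _ _ hsf _ hs0
    have h3 : 0 < a ^ 2 := by positivity
    have h4 : 0 < b ^ 2 := by positivity
    omega
  have hi0 : i₀ = k := by
    by_contra hne
    have := hsq k (Ne.symm hne)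
    rw [erase_eq i j k hij hik hjk, Finset.sum_pair hij] at this
    exact hface this
  have h1 := hsq j (by rw [hi0]; exact hjk)
  rw [erase_eq i k j hik hij hjk.symm, Finset.sum_pair hik] at h1
  rw [univ_eq i j k hij hik hjk, Finset.sum_insert (by simp [hij, hik]), Finset.sum_pair hjk] at hz
  exact no_two3 a b h4b h16 hsf hcrit (x i) (x j) (x k) (hpos i) (hpos k) h h1
    (by rw [← add_assoc] at hz; exact hz)

/-- The criterion. -/
theorem excluded3 (a b : ℕ) (h4b : ¬ 4 ∣ b) (h16 : ¬ 16 ∣ a)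
    (hsf : Squarefree (a ^ 2 + b ^ 2)) (hcrit : Crit3 a b) : Excluded a b := by
  obtain ⟨ha, hb⟩ := pos_of_not h4b h16
  have ha0 : (a : ℚ) ≠ 0 := by positivity
  have hb0 : (b : ℚ) ≠ 0 := by positivity
  refine ⟨?_, ?_, fun x y z hx _ hz hxy hh => no_two3 a b h4b h16 hsf hcrit x y z hx hz hxy hh.1 hh.2⟩
  · rintro ⟨x, hx, i, j, hij, h⟩
    have hj : (x j : ℚ) ≠ 0 := by
      have := hx.1 j
      positivity
    rw [div_eq_div_iff hj hb0] at h
    have h' : b * x i = a * x j := by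
      have : (b : ℚ) * x i = a * x j := by linarith
      exact_mod_cast this
    exact no_ratio3 a b h4b h16 hsf hcrit x hx i j hij h'
  · rintro ⟨x, hx, i, j, hij, h⟩
    have hj : (x j : ℚ) ≠ 0 := by
      have := hx.1 j
      positivity
    rw [div_eq_div_iff hj ha0] at h
    have h' : b * x j = a * x i := by
      have : (b : ℚ) * x j = a * x i := by linarith
      exact_mod_cast this
    exact no_ratio3 a b h4b h16 hsf hcrit x hx j i hij.symm h'

lemma crit3_of_prime (a b : ℕ) (hc : (a ^ 2 + b ^ 2).Prime) (h : CritPrime3 a b) : Crit3 a b := by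
  intro H D g k hHa hHo hDb hD4 hgk _ hH hD
  have hcop : Nat.Coprime a b := coprime_of_sf hc.prime.irreducible.squarefree
  have hg : g = 1 ∨ g = a ^ 2 + b ^ 2 := hc.eq_one_or_self_of_dvd g ⟨k, hgk.symm⟩
  refine ⟨h.1 H hHa hHo ?_, h.2 D hDb hD4 ?_, ?_⟩
  · intro p hp hpb hp4
    have : Fact p.Prime := ⟨hp⟩
    have h3 := hH p hp hpb hp4
    have hbz : (b : ZMod p) = 0 := (ZMod.natCast_eq_zero_iff b p).mpr hpb
    rcases hg with hg | hg
    · rw [hg, mul_one] at h3; exact h3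
    · rw [hg] at h3
      push_cast at h3
      rw [hbz] at h3
      refine sq_cancel p (H : ZMod p) (a : ZMod p) ?_ (by convert h3 using 1; ring)
      intro h0
      have h4 := (ZMod.natCast_eq_zero_iff a p).mp h0
      have := Nat.dvd_gcd h4 hpb
      rw [hcop] at this
      exact hp.one_lt.ne' (Nat.dvd_one.mp this)
  · intro p hp hpa hp2
    have : Fact p.Prime := ⟨hp⟩
    have h3 := hD p hp hpa hp2
    have haz : (a : ZMod p) = 0 := (ZMod.natCast_eq_zero_iff a p).mpr hpa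
    rcases hg with hg | hg
    · rw [hg, mul_one] at h3; exact h3
    · rw [hg] at h3
      push_cast at h3
      rw [haz] at h3
      refine sq_cancel p (D : ZMod p) (b : ZMod p) ?_ (by convert h3 using 1; ring)
      intro h0
      have h4 := (ZMod.natCast_eq_zero_iff b p).mp h0
      have := Nat.dvd_gcd hpa h4
      rw [hcop] at this
      exact hp.one_lt.ne' (Nat.dvd_one.mp this)
  · rcases hg with hg | hg
    · exact Or.inl hg
    · right
      rw [hg] at hgk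
      exact Nat.eq_of_mul_eq_mul_left hc.pos (by rw [hgk, mul_one])

lemma critPrime3_of {a b : ℕ} (ha : ¬ 4 ∣ a) (h : CritPrime a b) : CritPrime3 a b :=
  ⟨fun H h1 h2 h3 => h.1 H h1 (h2.resolve_right fun h4 => ha h4.1) h3, h.2⟩

lemma crit3_of {a b : ℕ} (ha : ¬ 4 ∣ a) (h : Crit a b) : Crit3 a b :=
  fun H D g k h1 h2 h3 h4 h5 h6 h7 h8 =>
    h H D g k h1 (h2.resolve_right fun h9 => ha h9.1) h3 h4 h5 h6 h7 h8

lemma family4 (a b : ℕ) (ha : a = 1 ∨ a = 2 ∨ a = 4)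
    (hb : ∀ p : ℕ, p.Prime → p ∣ b → p % 4 ≠ 1) : CritPrime3 a b := by
  rcases ha with ha | ha | ha
  · exact critPrime3_of (by rw [ha]; norm_num) (family1 a b (Or.inl ha) hb)
  · exact critPrime3_of (by rw [ha]; norm_num) (family1 a b (Or.inr ha) hb)
  · constructor
    · intro H hH hHo _
      rw [ha] at hH hHo
      have h1 : H ≤ 4 := Nat.le_of_dvd (by norm_num) hH
      interval_cases H
      · simp at hHo
      · exact ⟨1, rfl⟩
      · simp at hHo
      · exfalso; revert hH; norm_num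
      · exact ⟨2, rfl⟩
    · intro D hD hD4 _
      have : D = 1 := by
        by_contra hne
        obtain ⟨p, hp, hpd⟩ := Nat.exists_prime_and_dvd hne
        exact hb p hp (hpd.trans hD) (hD4 p hp hpd)
      rw [this]; exact ⟨1, rfl⟩

/-- The criterion, its form for a prime `a² + b²`, and three families. -/
theorem main3 :
    (∀ a b : ℕ, ¬ 4 ∣ b → ¬ 16 ∣ a → Squarefree (a ^ 2 + b ^ 2) → Crit3 a b → Excluded a b) ∧
      (∀ a b : ℕ, ¬ 4 ∣ b → ¬ 16 ∣ a → (a ^ 2 + b ^ 2).Prime → CritPrime3 a b →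
        Excluded a b) ∧
      (∀ a b : ℕ, (a = 1 ∨ a = 2 ∨ a = 4) → (∀ p : ℕ, p.Prime → p ∣ b → p % 4 ≠ 1) →
        CritPrime3 a b) ∧
      (∀ a b r l k : ℕ, r.Prime → r ≠ 2 → (a = r ∨ a = 2 * r) → l.Prime → l % 4 = 1 →
        b = l * k → (∀ p : ℕ, p.Prime → p ∣ k → p % 4 ≠ 1) → ¬ IsSquare (r : ZMod l) →
        CritPrime3 a b) ∧
      ∀ p b l : ℕ, p.Prime → (p % 8 = 3 ∨ p % 8 = 5) → b % 2 = 1 →
        (∀ q : ℕ, q.Prime → q ∣ b → q % 4 ≠ 1) → l.Prime → 2 * l = p ^ 2 + b ^ 2 →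
        Excluded p b := by
  refine ⟨fun a b h4b h16 hsf hcrit => excluded3 a b h4b h16 hsf hcrit,
    fun a b h4b h16 hc h =>
      excluded3 a b h4b h16 hc.prime.irreducible.squarefree (crit3_of_prime a b hc h),
    family4, ?_, main2.2.2.2.2⟩
  intro a b r l k hr hr2 ha hl hl4 hb hk hrl
  refine critPrime3_of ?_ (family2 a b r l k hr hr2 ha hl hl4 hb hk hrl)
  have hro : r % 2 = 1 := by
    rcases hr.eq_two_or_odd with h | h
    · exact absurd h hr2
    · exact h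
  rcases ha with h | h <;> rw [h] <;> omega

end Pool.Agent.CUBD
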