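import Pool.Agent.CUBD.Descent

/-! The descent step (MP_c16a21). -/

set_option autoImplicit false

namespace Pool.Agent.CUBD

lemma prime_of_gcd {x y : ℤ} (h : Int.gcd x y ≠ 1) :
    ∃ p : ℕ, p.Prime ∧ (p : ℤ) ∣ x ∧ (p : ℤ) ∣ y := by
  obtain ⟨p, hp1, hpd⟩ := Nat.exists_prime_and_dvd h
  exact ⟨p, hp1, (Int.natCast_dvd_natCast.mpr hpd).trans (Int.gcd_dvd_left x y),
    (Int.natCast_dvd_natCast.mpr hpd).trans (Int.gcd_dvd_right x y)⟩

lemma no_common {x y : ℤ} (h : Int.gcd x y = 1) (p : ℕ) (hp : p.Prime) (d1 : (p : ℤ) ∣ x)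
    (d2 : (p : ℤ) ∣ y) : False := by
  have d3 := Int.dvd_coe_gcd d1 d2
  rw [h] at d3
  have := Int.eq_one_of_dvd_one (by positivity) d3
  have h2 := hp.one_lt
  omega

lemma gcd_div {x y D x1 y1 : ℤ} (hD : D = (Int.gcd x y : ℤ)) (hx : 0 < x) (h1 : x = D * x1)
    (h2 : y = D * y1) : Int.gcd x1 y1 = 1 := by
  have h3 : Int.gcd (D * x1) (D * y1) = D.natAbs * Int.gcd x1 y1 := Int.gcd_mul_left D x1 y1
  rw [← h1, ← h2] at h3
  have h4 : D.natAbs = Int.gcd x y := by rw [hD]; simp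
  rw [h4] at h3
  have h5 : 0 < Int.gcd x y := Int.gcd_pos_of_ne_zero_left _ hx.ne'
  have h6 : Int.gcd x y * 1 = Int.gcd x y * Int.gcd x1 y1 := by rw [mul_one]; exact h3
  exact (Nat.eq_of_mul_eq_mul_left h5 h6).symm

/-- `E g₁` is a square modulo `p`, from `g₁ X² = α`, `k Y² = β`, `E α`, `E β` squares. -/
lemma isSquare_half (p : ℕ) [Fact p.Prime] (E g₁ k X Y A B e : ZMod p)
    (hA : E * (g₁ * X ^ 2) = A ^ 2) (hB : E * (k * Y ^ 2) = B ^ 2) (hgk : g₁ * k = e ^ 2)
    (hXB : X ≠ 0 ∨ B ≠ 0) : IsSquare (E * g₁) := by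
  by_cases hX : X = 0
  · have hB0 : B ≠ 0 := by
      rcases hXB with h | h
      · exact absurd hX h
      · exact h
    refine ⟨E * e * Y / B, ?_⟩
    field_simp
    linear_combination -(E * g₁) * hB + E ^ 2 * Y ^ 2 * hgk
  · exact ⟨A / X, by field_simp; linear_combination hA⟩

/-- One step of the descent. -/
lemma step (a b s t u v : ℤ) (an bn : ℕ) (han : (an : ℤ) = a) (hbn : (bn : ℤ) = b)
    (ha : 0 < a) (hb : 0 < b) (hab : a * b % 4 = 2)
    (hsf : Squarefree (a ^ 2 + b ^ 2)) (hcrit : Crit an bn)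
    (hs : 0 < s) (hst : Int.gcd s t = 1) (hu : 0 < u) (hv : 0 < v)
    (h1 : t ^ 2 + a ^ 2 * s ^ 2 = u ^ 2) (h2 : t ^ 2 + (a ^ 2 + b ^ 2) * s ^ 2 = v ^ 2) :
    ∃ s' t' u' v' : ℤ, 0 < s' ∧ s' < s ∧ 0 < t' ∧ t' ^ 2 + a ^ 2 * s' ^ 2 = u' ^ 2 ∧
      t' ^ 2 + (a ^ 2 + b ^ 2) * s' ^ 2 = v' ^ 2 := by
  have hq0 : 0 < a ^ 2 + b ^ 2 := by positivity
  have hse := s_even a b s t u v hab h1 h2
  obtain ⟨w, hw⟩ : ∃ w, s = 2 * w := ⟨s / 2, by omega⟩
  have hw0 : 0 < w := by omega
  have hto : t % 2 = 1 := by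
    by_contra hne
    have h2t : (2 : ℤ) ∣ t := by omega
    have h2s : (2 : ℤ) ∣ s := by omega
    have := Int.dvd_coe_gcd h2s h2t
    rw [hst] at this
    omega
  have hq5 : (a ^ 2 + b ^ 2) % 2 = 1 := by
    have := (c_mod a b hab).2
    omega
  -- no common prime of `a` and `b`
  have hncab : ∀ p : ℕ, p.Prime → (p : ℤ) ∣ a → (p : ℤ) ∣ b → False := by
    intro p hp d1 d2
    have hpp : Prime (p : ℤ) := Nat.prime_iff_prime_int.mp hp
    exact hpp.not_isUnit (hsf _ (dvd_add (by rw [pow_two]; exact mul_dvd_mul d1 d1)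
      (by rw [pow_two]; exact mul_dvd_mul d2 d2)))
  -- (1)
  obtain ⟨H, hH⟩ : ∃ H : ℤ, H = (Int.gcd a t : ℤ) := ⟨_, rfl⟩
  have hH0 : 0 < H := by
    rw [hH]
    have : 0 < Int.gcd a t := Int.gcd_pos_of_ne_zero_left _ ha.ne'
    exact_mod_cast this
  obtain ⟨a1, ha1⟩ : H ∣ a := by rw [hH]; exact Int.gcd_dvd_left a t
  obtain ⟨t1, ht1⟩ : H ∣ t := by rw [hH]; exact Int.gcd_dvd_right a t
  obtain ⟨u0, hu0⟩ : H ∣ u := by
    have : H ^ 2 ∣ u ^ 2 := ⟨t1 ^ 2 + a1 ^ 2 * s ^ 2, by rw [← h1, ha1, ht1]; ring⟩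
    exact (Int.pow_dvd_pow_iff (by norm_num)).mp this
  have ha10 : 0 < a1 := by rw [ha1] at ha; exact (mul_pos_iff_of_pos_left hH0).mp ha
  have hu00 : 0 < u0 := by rw [hu0] at hu; exact (mul_pos_iff_of_pos_left hH0).mp hu
  have hgat : Int.gcd a1 t1 = 1 := gcd_div hH ha ha1 ht1
  have hct : Int.gcd t1 (a1 * s) = 1 := by
    rw [← Int.isCoprime_iff_gcd_eq_one]
    refine IsCoprime.mul_right (Int.isCoprime_iff_gcd_eq_one.mpr hgat).symm ?_
    have hcst : IsCoprime t s := (Int.isCoprime_iff_gcd_eq_one.mpr hst).symm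
    rw [ht1] at hcst
    exact hcst.of_mul_left_right
  have ht1o : t1 % 2 = 1 := by
    by_contra hne
    have h6 : t1 % 2 = 0 := by omega
    have h7 : t % 2 = 0 := by rw [ht1]; simp [Int.mul_emod, h6]
    omega
  have hP1 : PythagoreanTriple t1 (a1 * s) u0 := by
    unfold PythagoreanTriple
    have hH2 : H ^ 2 ≠ 0 := by positivity
    apply mul_left_cancel₀ hH2
    have h3 := h1
    rw [hu0, ha1, ht1] at h3
    linear_combination h3
  obtain ⟨m, n, e1, e2, e3, hmn, _, hm0⟩ :=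
    PythagoreanTriple.coprime_classification' hP1 hct ht1o hu00
  have has : 0 < a1 * s := by positivity
  have hm : 0 < m := by
    rcases hm0.lt_or_eq with h | h
    · exact h
    · rw [← h] at e2; simp at e2; omega
  have hn : 0 < n := by
    by_contra hn
    push Not at hn
    nlinarith
  have huo : u % 2 = 1 := by
    have h3 : t ^ 2 % 2 = 1 := by have := sq_odd t hto; omega
    have h4 : (a ^ 2 * s ^ 2) % 2 = 0 := by rw [hw]; ring_nf; omega
    have h5 : u ^ 2 % 2 = 1 := by omega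
    by_contra hne
    have h6 : u % 2 = 0 := by omega
    have h7 : u ^ 2 % 2 = 0 := by simp [pow_two, Int.mul_emod, h6]
    omega
  have hvo : v % 2 = 1 := by
    have h3 : t ^ 2 % 2 = 1 := by have := sq_odd t hto; omega
    have h4 : ((a ^ 2 + b ^ 2) * s ^ 2) % 2 = 0 := by rw [hw]; ring_nf; omega
    have h5 : v ^ 2 % 2 = 1 := by omega
    by_contra hne
    have h6 : v % 2 = 0 := by omega
    have h7 : v ^ 2 % 2 = 0 := by simp [pow_two, Int.mul_emod, h6]
    omega
  -- (2)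
  obtain ⟨D, hD⟩ : ∃ D : ℤ, D = (Int.gcd u b : ℤ) := ⟨_, rfl⟩
  have hD0 : 0 < D := by
    rw [hD]
    have : 0 < Int.gcd u b := Int.gcd_pos_of_ne_zero_left _ hu.ne'
    exact_mod_cast this
  obtain ⟨u1, hu1⟩ : D ∣ u := by rw [hD]; exact Int.gcd_dvd_left u b
  obtain ⟨b1, hb1⟩ : D ∣ b := by rw [hD]; exact Int.gcd_dvd_right u b
  obtain ⟨v1, hv1⟩ : D ∣ v := by
    have : D ^ 2 ∣ v ^ 2 := ⟨u1 ^ 2 + b1 ^ 2 * s ^ 2, by
      have : v ^ 2 = u ^ 2 + b ^ 2 * s ^ 2 := by linarith
      rw [this, hu1, hb1]; ring⟩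
    exact (Int.pow_dvd_pow_iff (by norm_num)).mp this
  have hb10 : 0 < b1 := by rw [hb1] at hb; exact (mul_pos_iff_of_pos_left hD0).mp hb
  have hv10 : 0 < v1 := by rw [hv1] at hv; exact (mul_pos_iff_of_pos_left hD0).mp hv
  have hgub : Int.gcd u1 b1 = 1 := gcd_div hD hu hu1 hb1
  have hgus : IsCoprime u s := by
    rw [Int.isCoprime_iff_gcd_eq_one]
    by_contra hne
    obtain ⟨p, hp1, d1, d⟩ := prime_of_gcd hne
    have hpp : Prime (p : ℤ) := Nat.prime_iff_prime_int.mp hp1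
    have d3 : (p : ℤ) ∣ t ^ 2 := by
      have h3 : t ^ 2 = u ^ 2 - a ^ 2 * s ^ 2 := by linarith
      rw [h3]
      exact dvd_sub (dvd_pow d1 two_ne_zero) (dvd_mul_of_dvd_right (dvd_pow d two_ne_zero) _)
    exact no_common hst p hp1 d (hpp.dvd_of_dvd_pow d3)
  have hcu : Int.gcd u1 (b1 * s) = 1 := by
    rw [← Int.isCoprime_iff_gcd_eq_one]
    refine IsCoprime.mul_right (Int.isCoprime_iff_gcd_eq_one.mpr hgub) ?_
    rw [hu1] at hgus
    exact hgus.of_mul_left_right
  have hu1o : u1 % 2 = 1 := by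
    by_contra hne
    have h6 : u1 % 2 = 0 := by omega
    have h7 : u % 2 = 0 := by rw [hu1]; simp [Int.mul_emod, h6]
    omega
  have hP2 : PythagoreanTriple u1 (b1 * s) v1 := by
    unfold PythagoreanTriple
    have hD2 : D ^ 2 ≠ 0 := by positivity
    apply mul_left_cancel₀ hD2
    have h3 : v ^ 2 = u ^ 2 + b ^ 2 * s ^ 2 := by linarith
    rw [hu1, hb1, hv1] at h3
    linear_combination -h3
  obtain ⟨g, h, f1, f2, f3, hgh, _, hg0⟩ :=
    PythagoreanTriple.coprime_classification' hP2 hcu hu1o hv10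
  have k1 : u + v = 2 * (D * g ^ 2) := by
    have : u + v = D * (u1 + v1) := by rw [hu1, hv1]; ring
    rw [this, f1, f3]; ring
  have k2 : v - u = 2 * (D * h ^ 2) := by
    have : v - u = D * (v1 - u1) := by rw [hu1, hv1]; ring
    rw [this, f1, f3]; ring
  have k3 : u + t = 2 * (H * m ^ 2) := by
    have : u + t = H * (u0 + t1) := by rw [hu0, ht1]; ring
    rw [this, e3, e1]; ring
  have k4 : u - t = 2 * (H * n ^ 2) := by
    have : u - t = H * (u0 - t1) := by rw [hu0, ht1]; ring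
    rw [this, e3, e1]; ring
  -- (3)
  obtain ⟨α, hα⟩ : ∃ α, v - t = 2 * α := ⟨(v - t) / 2, by omega⟩
  obtain ⟨β, hβ⟩ : ∃ β, v + t = 2 * β := ⟨(v + t) / 2, by omega⟩
  have hprod : α * β = (a ^ 2 + b ^ 2) * w ^ 2 := by
    have h3 : (v - t) * (v + t) = (a ^ 2 + b ^ 2) * s ^ 2 := by linarith [h2]
    rw [hα, hβ, hw] at h3
    linarith
  have hvt : t ^ 2 < v ^ 2 := by
    have : 0 < (a ^ 2 + b ^ 2) * s ^ 2 := by positivity
    linarith
  have hvt2 := abs_lt_of_sq_lt_sq hvt hv.le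
  have hvt3 := abs_lt.mp hvt2
  have hα0 : 0 < α := by linarith [hvt3.2]
  have hβ0 : 0 < β := by linarith [hvt3.1]
  have hcop : IsCoprime α β := by
    rw [Int.isCoprime_iff_gcd_eq_one]
    by_contra hne
    obtain ⟨p, hp1, d1, d2⟩ := prime_of_gcd hne
    have hpp : Prime (p : ℤ) := Nat.prime_iff_prime_int.mp hp1
    have dt : (p : ℤ) ∣ t := by
      have h3 : t = β - α := by linarith
      rw [h3]; exact dvd_sub d2 d1
    have ds : ¬ (p : ℤ) ∣ w := fun d =>
      no_common hst p hp1 (by rw [hw]; exact dvd_mul_of_dvd_right d 2) dt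
    have dq : (p : ℤ) * p ∣ (a ^ 2 + b ^ 2) * w ^ 2 := by
      rw [← hprod]; exact mul_dvd_mul d1 d2
    have hcw : IsCoprime ((p : ℤ) * p) (w ^ 2) := by
      have h3 : IsCoprime (p : ℤ) w := (Prime.coprime_iff_not_dvd hpp).mpr ds
      exact (h3.mul_left h3).pow_right
    exact hpp.not_isUnit (hsf _ (hcw.dvd_of_dvd_mul_right dq))
  obtain ⟨g₁, k, X, Y, hg10, hk0, hX0, hY0, hgk, hαX, hβY, hXY⟩ :=
    split_mul α β (a ^ 2 + b ^ 2) w hα0 hβ0 hq0 hw0 hcop hprod
  obtain ⟨g', hg'⟩ := Int.eq_ofNat_of_zero_le hg10.le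
  obtain ⟨k', hk'⟩ := Int.eq_ofNat_of_zero_le hk0.le
  have hcn : ((an ^ 2 + bn ^ 2 : ℕ) : ℤ) = a ^ 2 + b ^ 2 := by push_cast; rw [han, hbn]
  have hgk' : g' * k' = an ^ 2 + bn ^ 2 := by
    have : ((g' * k' : ℕ) : ℤ) = ((an ^ 2 + bn ^ 2 : ℕ) : ℤ) := by
      rw [hcn]; push_cast; rw [← hgk, hg', hk']
    exact_mod_cast this
  -- facts modulo a prime `p ≠ 2`
  have htwo : ∀ p : ℕ, p.Prime → p ≠ 2 → (2 : ZMod p) ≠ 0 := by
    intro p hp hp2 h0
    have : ((2 : ℕ) : ZMod p) = 0 := by exact_mod_cast h0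
    rw [ZMod.natCast_eq_zero_iff] at this
    exact hp2 ((Nat.prime_dvd_prime_iff_eq hp Nat.prime_two).mp this)
  obtain ⟨⟨η, hη⟩, ⟨δ, hδ⟩, htriv⟩ :
      IsSquare (Int.gcd a t) ∧ IsSquare (Int.gcd u b) ∧ (g' = 1 ∨ k' = 1) := by
    apply hcrit (Int.gcd a t) (Int.gcd u b) g' k'
    · have : (Int.gcd a t : ℤ) ∣ (an : ℤ) := by rw [han]; exact Int.gcd_dvd_left a t
      exact_mod_cast this
    · have h3 : (Int.gcd a t : ℤ) ∣ t := Int.gcd_dvd_right a t
      by_contra hne
      have h4 : (2 : ℤ) ∣ (Int.gcd a t : ℤ) := by omega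
      have := h4.trans h3
      omega
    · have : (Int.gcd u b : ℤ) ∣ (bn : ℤ) := by rw [hbn]; exact Int.gcd_dvd_right u b
      exact_mod_cast this
    · intro p hp hpd
      have d1 : (p : ℤ) ∣ u :=
        (Int.natCast_dvd_natCast.mpr hpd).trans (Int.gcd_dvd_left u b)
      have d2 : (p : ℤ) ∣ b :=
        (Int.natCast_dvd_natCast.mpr hpd).trans (Int.gcd_dvd_right u b)
      have hpp : Prime (p : ℤ) := Nat.prime_iff_prime_int.mp hp
      have d3 : (p : ℤ) ∣ u0 := by
        rw [hu0] at d1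
        rcases hpp.dvd_or_dvd d1 with d | d
        · exact (hncab p hp (by rw [ha1]; exact dvd_mul_of_dvd_left d a1) d2).elim
        · exact d
      have hp2 : p ≠ 2 := by rintro rfl; push_cast at d1; omega
      have hp3 : p % 4 ≠ 3 := fun h3 => not_dvd_sum p hp h3 m n hmn (by rw [← e3]; exact d3)
      have := hp.eq_two_or_odd
      omega
    · exact hgk'
    · intro p hp hpd
      have : Fact p.Prime := ⟨hp⟩
      have hpd' : (p : ℤ) ∣ a ^ 2 + b ^ 2 := by
        rw [← hcn]; exact Int.natCast_dvd_natCast.mpr hpd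
      have hc0 : ((a ^ 2 + b ^ 2 : ℤ) : ZMod p) = 0 :=
        (ZMod.intCast_zmod_eq_zero_iff_dvd _ p).mpr hpd'
      have hp2 : p ≠ 2 := by
        rintro rfl
        push_cast at hpd'
        omega
      have h20 := htwo p hp hp2
      have hpp : Prime (p : ℤ) := Nat.prime_iff_prime_int.mp hp
      have haz : (a : ZMod p) ≠ 0 := by
        intro h0
        have d1 := (ZMod.intCast_zmod_eq_zero_iff_dvd _ p).mp h0
        have d2 : (p : ℤ) ∣ b ^ 2 := by
          have h3 : b ^ 2 = (a ^ 2 + b ^ 2) - a ^ 2 := by ring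
          rw [h3]; exact dvd_sub hpd' (dvd_pow d1 two_ne_zero)
        exact hncab p hp d1 (hpp.dvd_of_dvd_pow d2)
      push_cast at hc0
      have hi : ((b : ZMod p) / a) ^ 2 = -1 := by
        field_simp; linear_combination hc0
      set i : ZMod p := (b : ZMod p) / a
      have hvt' : (v : ZMod p) ^ 2 = (t : ZMod p) ^ 2 := by
        have := congrArg (fun x : ℤ => (x : ZMod p)) h2
        push_cast at this
        rw [hc0] at this
        linear_combination -this
      have K1 := congrArg (fun x : ℤ => (x : ZMod p)) k1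
      have K2 := congrArg (fun x : ℤ => (x : ZMod p)) k2
      have K3 := congrArg (fun x : ℤ => (x : ZMod p)) k3
      have K4 := congrArg (fun x : ℤ => (x : ZMod p)) k4
      push_cast at K1 K2 K3 K4
      have hDz : ((Int.gcd a t * Int.gcd u b : ℕ) : ZMod p) = (H : ZMod p) * (D : ZMod p) := by
        rw [hD, hH]; push_cast; rfl
      rw [hDz]
      have hghz : (g : ZMod p) ≠ 0 ∨ (h : ZMod p) ≠ 0 := by
        by_contra hcon
        push Not at hcon
        exact no_common hgh p hp ((ZMod.intCast_zmod_eq_zero_iff_dvd _ p).mp hcon.1)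
          ((ZMod.intCast_zmod_eq_zero_iff_dvd _ p).mp hcon.2)
      rcases sq_eq_sq_iff_eq_or_eq_neg.mp hvt' with hvt'' | hvt''
      · refine isSquare_of p _ g h (H * m) (i * (H * n)) ?_ ?_ hghz
        · apply mul_left_cancel₀ h20
          linear_combination (H : ZMod p) * (-K1 + K3 + hvt'')
        · apply mul_left_cancel₀ h20
          linear_combination (H : ZMod p) * (-K2 - K4 + hvt'') -
            2 * (H : ZMod p) ^ 2 * (n : ZMod p) ^ 2 * hi
      · refine isSquare_of p _ g h (H * n) (i * (H * m)) ?_ ?_ hghz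
        · apply mul_left_cancel₀ h20
          linear_combination (H : ZMod p) * (-K1 + K4 + hvt'')
        · apply mul_left_cancel₀ h20
          linear_combination (H : ZMod p) * (-K2 - K3 + hvt'') -
            2 * (H : ZMod p) ^ 2 * (m : ZMod p) ^ 2 * hi
    · intro p hp hpd hp4
      have : Fact p.Prime := ⟨hp⟩
      have hpb : (p : ℤ) ∣ b := by rw [← hbn]; exact Int.natCast_dvd_natCast.mpr hpd
      have hbz : (b : ZMod p) = 0 := (ZMod.intCast_zmod_eq_zero_iff_dvd _ p).mpr hpb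
      have hp2 : p ≠ 2 := by omega
      have h20 := htwo p hp hp2
      obtain ⟨i, hi⟩ : IsSquare (-1 : ZMod p) := ZMod.exists_sq_eq_neg_one_iff.mpr (by omega)
      have huv' : (v : ZMod p) ^ 2 = (u : ZMod p) ^ 2 := by
        have h3 : v ^ 2 = u ^ 2 + b ^ 2 * s ^ 2 := by linarith
        have := congrArg (fun x : ℤ => (x : ZMod p)) h3
        push_cast at this
        rw [hbz] at this
        linear_combination this
      have K3 := congrArg (fun x : ℤ => (x : ZMod p)) k3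
      have K4 := congrArg (fun x : ℤ => (x : ZMod p)) k4
      have K5 := congrArg (fun x : ℤ => (x : ZMod p)) hα
      have K6 := congrArg (fun x : ℤ => (x : ZMod p)) hβ
      have K7 := congrArg (fun x : ℤ => (x : ZMod p)) hαX
      have K8 := congrArg (fun x : ℤ => (x : ZMod p)) hβY
      have K9 := congrArg (fun x : ℤ => (x : ZMod p)) hgk
      push_cast at K3 K4 K5 K6 K7 K8 K9
      have hHz : (H : ZMod p) ≠ 0 := by
        intro h0
        have d1 := (ZMod.intCast_zmod_eq_zero_iff_dvd _ p).mp h0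
        exact hncab p hp (by rw [ha1]; exact dvd_mul_of_dvd_left d1 a1) hpb
      have hgz : ((Int.gcd a t * g' : ℕ) : ZMod p) = (H : ZMod p) * (g₁ : ZMod p) := by
        rw [hH, hg']; push_cast; rfl
      rw [hgz]
      have hαβ : (X : ZMod p) ≠ 0 ∨ (β : ZMod p) ≠ 0 := by
        by_contra hcon
        push Not at hcon
        have hα' : (α : ZMod p) = 0 := by rw [K7, hcon.1]; ring
        exact no_common (Int.isCoprime_iff_gcd_eq_one.mp hcop) p hp
          ((ZMod.intCast_zmod_eq_zero_iff_dvd _ p).mp hα')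
          ((ZMod.intCast_zmod_eq_zero_iff_dvd _ p).mp hcon.2)
      obtain ⟨A, B, hA, hB⟩ : ∃ A B : ZMod p, (H : ZMod p) * (α : ZMod p) = A ^ 2 ∧
          (H : ZMod p) * (β : ZMod p) = B ^ 2 := by
        rcases sq_eq_sq_iff_eq_or_eq_neg.mp huv' with hh | hh
        · refine ⟨H * n, H * m, ?_, ?_⟩
          · apply mul_left_cancel₀ h20
            linear_combination (H : ZMod p) * (-K5 + K4 + hh)
          · apply mul_left_cancel₀ h20
            linear_combination (H : ZMod p) * (-K6 + K3 + hh)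
        · refine ⟨i * (H * m), i * (H * n), ?_, ?_⟩
          · apply mul_left_cancel₀ h20
            linear_combination (H : ZMod p) * (-K5 - K3 + hh) +
              2 * (H : ZMod p) ^ 2 * (m : ZMod p) ^ 2 * hi
          · apply mul_left_cancel₀ h20
            linear_combination (H : ZMod p) * (-K6 - K4 + hh) +
              2 * (H : ZMod p) ^ 2 * (n : ZMod p) ^ 2 * hi
      refine isSquare_half p (H : ZMod p) (g₁ : ZMod p) (k : ZMod p) (X : ZMod p) (Y : ZMod p) A B
        (a : ZMod p) (by rw [← K7]; exact hA) (by rw [← K8]; exact hB)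
        (by rw [K9, hbz]; ring) ?_
      rcases hαβ with h3 | h3
      · exact Or.inl h3
      · right
        rintro rfl
        have : (H : ZMod p) * (β : ZMod p) = 0 := by rw [hB]; ring
        rcases mul_eq_zero.mp this with h4 | h4
        · exact hHz h4
        · exact h3 h4
    · intro p hp hpd hp2
      have : Fact p.Prime := ⟨hp⟩
      have hpa : (p : ℤ) ∣ a := by rw [← han]; exact Int.natCast_dvd_natCast.mpr hpd
      have haz : (a : ZMod p) = 0 := (ZMod.intCast_zmod_eq_zero_iff_dvd _ p).mpr hpa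
      have h20 := htwo p hp hp2
      have htu' : (t : ZMod p) ^ 2 = (u : ZMod p) ^ 2 := by
        have := congrArg (fun x : ℤ => (x : ZMod p)) h1
        push_cast at this
        rw [haz] at this
        linear_combination this
      have K1 := congrArg (fun x : ℤ => (x : ZMod p)) k1
      have K2 := congrArg (fun x : ℤ => (x : ZMod p)) k2
      have K5 := congrArg (fun x : ℤ => (x : ZMod p)) hα
      have K6 := congrArg (fun x : ℤ => (x : ZMod p)) hβ
      have K7 := congrArg (fun x : ℤ => (x : ZMod p)) hαX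
      have K8 := congrArg (fun x : ℤ => (x : ZMod p)) hβY
      have K9 := congrArg (fun x : ℤ => (x : ZMod p)) hgk
      push_cast at K1 K2 K5 K6 K7 K8 K9
      have hDz0 : (D : ZMod p) ≠ 0 := by
        intro h0
        have d1 := (ZMod.intCast_zmod_eq_zero_iff_dvd _ p).mp h0
        exact hncab p hp hpa (by rw [hb1]; exact dvd_mul_of_dvd_left d1 b1)
      have hgz : ((Int.gcd u b * g' : ℕ) : ZMod p) = (D : ZMod p) * (g₁ : ZMod p) := by
        rw [hD, hg']; push_cast; rfl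
      rw [hgz]
      have hαβ : (X : ZMod p) ≠ 0 ∨ (β : ZMod p) ≠ 0 := by
        by_contra hcon
        push Not at hcon
        have hα' : (α : ZMod p) = 0 := by rw [K7, hcon.1]; ring
        exact no_common (Int.isCoprime_iff_gcd_eq_one.mp hcop) p hp
          ((ZMod.intCast_zmod_eq_zero_iff_dvd _ p).mp hα')
          ((ZMod.intCast_zmod_eq_zero_iff_dvd _ p).mp hcon.2)
      obtain ⟨A, B, hA, hB⟩ : ∃ A B : ZMod p, (D : ZMod p) * (α : ZMod p) = A ^ 2 ∧
          (D : ZMod p) * (β : ZMod p) = B ^ 2 := by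
        rcases sq_eq_sq_iff_eq_or_eq_neg.mp htu' with hh | hh
        · refine ⟨D * h, D * g, ?_, ?_⟩
          · apply mul_left_cancel₀ h20
            linear_combination (D : ZMod p) * (-K5 + K2 - hh)
          · apply mul_left_cancel₀ h20
            linear_combination (D : ZMod p) * (-K6 + K1 + hh)
        · refine ⟨D * g, D * h, ?_, ?_⟩
          · apply mul_left_cancel₀ h20
            linear_combination (D : ZMod p) * (-K5 + K1 - hh)
          · apply mul_left_cancel₀ h20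
            linear_combination (D : ZMod p) * (-K6 + K2 + hh)
      refine isSquare_half p (D : ZMod p) (g₁ : ZMod p) (k : ZMod p) (X : ZMod p) (Y : ZMod p) A B
        (b : ZMod p) (by rw [← K7]; exact hA) (by rw [← K8]; exact hB)
        (by rw [K9, haz]; ring) ?_
      rcases hαβ with h3 | h3
      · exact Or.inl h3
      · right
        rintro rfl
        have : (D : ZMod p) * (β : ZMod p) = 0 := by rw [hB]; ring
        rcases mul_eq_zero.mp this with h4 | h4
        · exact hDz0 h4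
        · exact h3 h4
  have hHη : H = (η : ℤ) * η := by rw [hH, hη]; push_cast; rfl
  have hDδ : D = (δ : ℤ) * δ := by rw [hD, hδ]; push_cast; rfl
  have hη0 : (0 : ℤ) < η := by
    have : (η : ℤ) ≠ 0 := by rintro h0; rw [h0] at hHη; simp at hHη; omega
    have h3 : (0 : ℤ) ≤ η := by positivity
    omega
  have l1 : (η * m) ^ 2 + α = (δ * g : ℤ) ^ 2 := by
    have e4 : (δ * g : ℤ) ^ 2 = D * g ^ 2 := by rw [hDδ]; ring
    have e5 : (η * m : ℤ) ^ 2 = H * m ^ 2 := by rw [hHη]; ring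
    rw [e4, e5]; linarith
  have l2 : (η * n) ^ 2 + β = (δ * g : ℤ) ^ 2 := by
    have e4 : (δ * g : ℤ) ^ 2 = D * g ^ 2 := by rw [hDδ]; ring
    have e5 : (η * n : ℤ) ^ 2 = H * n ^ 2 := by rw [hHη]; ring
    rw [e4, e5]; linarith
  have e6 : a * s = 2 * (η * m) * (η * n) := by
    have : a * s = H * (a1 * s) := by rw [ha1]; ring
    rw [this, e2, hHη]; ring
  have hM : 0 < η * m := by positivity
  have hN : 0 < η * n := by positivity
  rcases htriv with h3 | h3
  · have hg1 : g₁ = 1 := by rw [hg', h3]; rfl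
    rw [hg1, one_mul] at hαX hgk
    rw [hgk] at hβY
    exact stepA a (a ^ 2 + b ^ 2) (δ * g) (η * m) (η * n) s w X Y hM hN hX0 hY0 hw e6 hXY
      (by rw [← hαX]; exact l1) (by rw [← hβY]; exact l2)
  · have hk1 : k = 1 := by rw [hk', h3]; rfl
    rw [hk1, one_mul] at hβY
    rw [hk1, mul_one] at hgk
    rw [hgk] at hαX
    exact stepA a (a ^ 2 + b ^ 2) (δ * g) (η * n) (η * m) s w Y X hN hM hY0 hX0 hw
      (by rw [e6]; ring) (by rw [mul_comm]; exact hXY) (by rw [← hβY]; exact l2)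
      (by rw [← hαX]; exact l1)

end Pool.Agent.CUBD
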