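import Pool.Agent.CUBD.StepTwo
import Pool.Agent.CUBD.CritDefs

/-! The descent step, also for `a` divisible by 4 (MP_c16a21). -/

set_option autoImplicit false

namespace Pool.Agent.CUBD

lemma Crit3.crit {a b : ℕ} (h : Crit3 a b) : Crit a b :=
  fun H D g k h1 h2 h3 h4 h5 h6 h7 h8 => h H D g k h1 (Or.inl h2) h3 h4 h5 h6 h7 h8

/-- The end of the descent step, `s` odd. -/
lemma stepB (a c G m n s X Y : ℤ) (hm : 0 < m) (hn : 0 < n) (hX : 1 < X) (hY : 0 < Y)
    (has : a * s = m * n) (hXY : X * Y = s)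
    (h1 : m ^ 2 + X ^ 2 = G ^ 2) (h2 : n ^ 2 + c * Y ^ 2 = G ^ 2) :
    ∃ s' t' u' v' : ℤ, 0 < s' ∧ s' < s ∧ 0 < t' ∧ t' ^ 2 + a ^ 2 * s' ^ 2 = u' ^ 2 ∧
      t' ^ 2 + c * s' ^ 2 = v' ^ 2 := by
  have haXY : a * (X * Y) = m * n := by rw [hXY]; exact has
  have hkey : m ^ 2 * (n ^ 2 + a ^ 2 * Y ^ 2) = (a * Y * G) ^ 2 := by
    have : (m * n) ^ 2 = (a * (X * Y)) ^ 2 := by rw [haXY]
    calc m ^ 2 * (n ^ 2 + a ^ 2 * Y ^ 2) = (m * n) ^ 2 + m ^ 2 * a ^ 2 * Y ^ 2 := by ring
      _ = a ^ 2 * Y ^ 2 * (m ^ 2 + X ^ 2) := by rw [this]; ring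
      _ = a ^ 2 * Y ^ 2 * G ^ 2 := by rw [h1]
      _ = (a * Y * G) ^ 2 := by ring
  have hdvd : m ∣ a * Y * G := by
    have : m ^ 2 ∣ (a * Y * G) ^ 2 := ⟨_, hkey.symm⟩
    exact (Int.pow_dvd_pow_iff (by norm_num)).mp this
  obtain ⟨e, he⟩ := hdvd
  refine ⟨Y, n, e, G, hY, ?_, hn, ?_, h2⟩
  · rw [← hXY]; nlinarith
  · have hm2 : m ^ 2 ≠ 0 := by positivity
    apply mul_left_cancel₀ hm2
    rw [hkey, he]; ring

/-- One step of the descent. -/
lemma stepE (a b s t u v : ℤ) (an bn : ℕ) (han : (an : ℤ) = a) (hbn : (bn : ℤ) = b)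
    (ha : 0 < a) (hb : 0 < b) (hse : s % 2 = 0)
    (hsf : Squarefree (a ^ 2 + b ^ 2)) (hcrit : Crit an bn)
    (hs : 0 < s) (hst : Int.gcd s t = 1) (hu : 0 < u) (hv : 0 < v)
    (h1 : t ^ 2 + a ^ 2 * s ^ 2 = u ^ 2) (h2 : t ^ 2 + (a ^ 2 + b ^ 2) * s ^ 2 = v ^ 2) :
    ∃ s' t' u' v' : ℤ, 0 < s' ∧ s' < s ∧ 0 < t' ∧ t' ^ 2 + a ^ 2 * s' ^ 2 = u' ^ 2 ∧
      t' ^ 2 + (a ^ 2 + b ^ 2) * s' ^ 2 = v' ^ 2 := by
  have hq0 : 0 < a ^ 2 + b ^ 2 := by positivity
  obtain ⟨w, hw⟩ : ∃ w, s = 2 * w := ⟨s / 2, by omega⟩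
  have hw0 : 0 < w := by omega
  have hto : t % 2 = 1 := by
    by_contra hne
    have h2t : (2 : ℤ) ∣ t := by omega
    have h2s : (2 : ℤ) ∣ s := by omega
    have := Int.dvd_coe_gcd h2s h2t
    rw [hst] at this
    omega
  -- no common prime of `a` and `b`
  have hncab : ∀ p : ℕ, p.Prime → (p : ℤ) ∣ a → (p : ℤ) ∣ b → False := by
    intro p hp d1 d2
    have hpp : Prime (p : ℤ) := Nat.prime_iff_prime_int.mp hp
    exact hpp.not_isUnit (hsf _ (dvd_add (by rw [pow_two]; exact mul_dvd_mul d1 d1)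
      (by rw [pow_two]; exact mul_dvd_mul d2 d2)))
  -- (1)
  obtain ⟨H, hH⟩ : ∃ H : ℤ, H = (Int.gcd a t : ℤ) := ⟨_, rfl⟩
  have hH0 : 0 < H := by
    rw [hH]
    have : 0 < Int.gcd a t := Int.gcd_pos_of_ne_zero_left _ ha.ne'
    exact_mod_cast this
  obtain ⟨a1, ha1⟩ : H ∣ a := by rw [hH]; exact Int.gcd_dvd_left a t
  obtain ⟨t1, ht1⟩ : H ∣ t := by rw [hH]; exact Int.gcd_dvd_right a t
  obtain ⟨u0, hu0⟩ : H ∣ u := by
    have : H ^ 2 ∣ u ^ 2 := ⟨t1 ^ 2 + a1 ^ 2 * s ^ 2, by rw [← h1, ha1, ht1]; ring⟩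
    exact (Int.pow_dvd_pow_iff (by norm_num)).mp this
  have ha10 : 0 < a1 := by rw [ha1] at ha; exact (mul_pos_iff_of_pos_left hH0).mp ha
  have hu00 : 0 < u0 := by rw [hu0] at hu; exact (mul_pos_iff_of_pos_left hH0).mp hu
  have hgat : Int.gcd a1 t1 = 1 := gcd_div hH ha ha1 ht1
  have hct : Int.gcd t1 (a1 * s) = 1 := by
    rw [← Int.isCoprime_iff_gcd_eq_one]
    refine IsCoprime.mul_right (Int.isCoprime_iff_gcd_eq_one.mpr hgat).symm ?_
    have hcst : IsCoprime t s := (Int.isCoprime_iff_gcd_eq_one.mpr hst).symm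
    rw [ht1] at hcst
    exact hcst.of_mul_left_right
  have ht1o : t1 % 2 = 1 := by
    by_contra hne
    have h6 : t1 % 2 = 0 := by omega
    have h7 : t % 2 = 0 := by rw [ht1]; simp [Int.mul_emod, h6]
    omega
  have hP1 : PythagoreanTriple t1 (a1 * s) u0 := by
    unfold PythagoreanTriple
    have hH2 : H ^ 2 ≠ 0 := by positivity
    apply mul_left_cancel₀ hH2
    have h3 := h1
    rw [hu0, ha1, ht1] at h3
    linear_combination h3
  obtain ⟨m, n, e1, e2, e3, hmn, _, hm0⟩ :=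
    PythagoreanTriple.coprime_classification' hP1 hct ht1o hu00
  have has : 0 < a1 * s := by positivity
  have hm : 0 < m := by
    rcases hm0.lt_or_eq with h | h
    · exact h
    · rw [← h] at e2; simp at e2; omega
  have hn : 0 < n := by
    by_contra hn
    push Not at hn
    nlinarith
  have huo : u % 2 = 1 := by
    have h3 : t ^ 2 % 2 = 1 := by have := sq_odd t hto; omega
    have h4 : (a ^ 2 * s ^ 2) % 2 = 0 := by rw [hw]; ring_nf; omega
    have h5 : u ^ 2 % 2 = 1 := by omega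
    by_contra hne
    have h6 : u % 2 = 0 := by omega
    have h7 : u ^ 2 % 2 = 0 := by simp [pow_two, Int.mul_emod, h6]
    omega
  have hvo : v % 2 = 1 := by
    have h3 : t ^ 2 % 2 = 1 := by have := sq_odd t hto; omega
    have h4 : ((a ^ 2 + b ^ 2) * s ^ 2) % 2 = 0 := by rw [hw]; ring_nf; omega
    have h5 : v ^ 2 % 2 = 1 := by omega
    by_contra hne
    have h6 : v % 2 = 0 := by omega
    have h7 : v ^ 2 % 2 = 0 := by simp [pow_two, Int.mul_emod, h6]
    omega
  -- (2)
  obtain ⟨D, hD⟩ : ∃ D : ℤ, D = (Int.gcd u b : ℤ) := ⟨_, rfl⟩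
  have hD0 : 0 < D := by
    rw [hD]
    have : 0 < Int.gcd u b := Int.gcd_pos_of_ne_zero_left _ hu.ne'
    exact_mod_cast this
  obtain ⟨u1, hu1⟩ : D ∣ u := by rw [hD]; exact Int.gcd_dvd_left u b
  obtain ⟨b1, hb1⟩ : D ∣ b := by rw [hD]; exact Int.gcd_dvd_right u b
  obtain ⟨v1, hv1⟩ : D ∣ v := by
    have : D ^ 2 ∣ v ^ 2 := ⟨u1 ^ 2 + b1 ^ 2 * s ^ 2, by
      have : v ^ 2 = u ^ 2 + b ^ 2 * s ^ 2 := by linarith
      rw [this, hu1, hb1]; ring⟩
    exact (Int.pow_dvd_pow_iff (by norm_num)).mp this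
  have hb10 : 0 < b1 := by rw [hb1] at hb; exact (mul_pos_iff_of_pos_left hD0).mp hb
  have hv10 : 0 < v1 := by rw [hv1] at hv; exact (mul_pos_iff_of_pos_left hD0).mp hv
  have hgub : Int.gcd u1 b1 = 1 := gcd_div hD hu hu1 hb1
  have hgus : IsCoprime u s := by
    rw [Int.isCoprime_iff_gcd_eq_one]
    by_contra hne
    obtain ⟨p, hp1, d1, d⟩ := prime_of_gcd hne
    have hpp : Prime (p : ℤ) := Nat.prime_iff_prime_int.mp hp1
    have d3 : (p : ℤ) ∣ t ^ 2 := by
      have h3 : t ^ 2 = u ^ 2 - a ^ 2 * s ^ 2 := by linarith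
      rw [h3]
      exact dvd_sub (dvd_pow d1 two_ne_zero) (dvd_mul_of_dvd_right (dvd_pow d two_ne_zero) _)
    exact no_common hst p hp1 d (hpp.dvd_of_dvd_pow d3)
  have hcu : Int.gcd u1 (b1 * s) = 1 := by
    rw [← Int.isCoprime_iff_gcd_eq_one]
    refine IsCoprime.mul_right (Int.isCoprime_iff_gcd_eq_one.mpr hgub) ?_
    rw [hu1] at hgus
    exact hgus.of_mul_left_right
  have hu1o : u1 % 2 = 1 := by
    by_contra hne
    have h6 : u1 % 2 = 0 := by omega
    have h7 : u % 2 = 0 := by rw [hu1]; simp [Int.mul_emod, h6]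
    omega
  have hP2 : PythagoreanTriple u1 (b1 * s) v1 := by
    unfold PythagoreanTriple
    have hD2 : D ^ 2 ≠ 0 := by positivity
    apply mul_left_cancel₀ hD2
    have h3 : v ^ 2 = u ^ 2 + b ^ 2 * s ^ 2 := by linarith
    rw [hu1, hb1, hv1] at h3
    linear_combination -h3
  obtain ⟨g, h, f1, f2, f3, hgh, _, hg0⟩ :=
    PythagoreanTriple.coprime_classification' hP2 hcu hu1o hv10
  have k1 : u + v = 2 * (D * g ^ 2) := by
    have : u + v = D * (u1 + v1) := by rw [hu1, hv1]; ring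
    rw [this, f1, f3]; ring
  have k2 : v - u = 2 * (D * h ^ 2) := by
    have : v - u = D * (v1 - u1) := by rw [hu1, hv1]; ring
    rw [this, f1, f3]; ring
  have k3 : u + t = 2 * (H * m ^ 2) := by
    have : u + t = H * (u0 + t1) := by rw [hu0, ht1]; ring
    rw [this, e3, e1]; ring
  have k4 : u - t = 2 * (H * n ^ 2) := by
    have : u - t = H * (u0 - t1) := by rw [hu0, ht1]; ring
    rw [this, e3, e1]; ring
  -- (3)
  obtain ⟨α, hα⟩ : ∃ α, v - t = 2 * α := ⟨(v - t) / 2, by omega⟩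
  obtain ⟨β, hβ⟩ : ∃ β, v + t = 2 * β := ⟨(v + t) / 2, by omega⟩
  have hprod : α * β = (a ^ 2 + b ^ 2) * w ^ 2 := by
    have h3 : (v - t) * (v + t) = (a ^ 2 + b ^ 2) * s ^ 2 := by linarith [h2]
    rw [hα, hβ, hw] at h3
    linarith
  have hvt : t ^ 2 < v ^ 2 := by
    have : 0 < (a ^ 2 + b ^ 2) * s ^ 2 := by positivity
    linarith
  have hvt2 := abs_lt_of_sq_lt_sq hvt hv.le
  have hvt3 := abs_lt.mp hvt2
  have hα0 : 0 < α := by linarith [hvt3.2]
  have hβ0 : 0 < β := by linarith [hvt3.1]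
  have hcop : IsCoprime α β := by
    rw [Int.isCoprime_iff_gcd_eq_one]
    by_contra hne
    obtain ⟨p, hp1, d1, d2⟩ := prime_of_gcd hne
    have hpp : Prime (p : ℤ) := Nat.prime_iff_prime_int.mp hp1
    have dt : (p : ℤ) ∣ t := by
      have h3 : t = β - α := by linarith
      rw [h3]; exact dvd_sub d2 d1
    have ds : ¬ (p : ℤ) ∣ w := fun d =>
      no_common hst p hp1 (by rw [hw]; exact dvd_mul_of_dvd_right d 2) dt
    have dq : (p : ℤ) * p ∣ (a ^ 2 + b ^ 2) * w ^ 2 := by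
      rw [← hprod]; exact mul_dvd_mul d1 d2
    have hcw : IsCoprime ((p : ℤ) * p) (w ^ 2) := by
      have h3 : IsCoprime (p : ℤ) w := (Prime.coprime_iff_not_dvd hpp).mpr ds
      exact (h3.mul_left h3).pow_right
    exact hpp.not_isUnit (hsf _ (hcw.dvd_of_dvd_mul_right dq))
  obtain ⟨g₁, k, X, Y, hg10, hk0, hX0, hY0, hgk, hαX, hβY, hXY⟩ :=
    split_mul α β (a ^ 2 + b ^ 2) w hα0 hβ0 hq0 hw0 hcop hprod
  obtain ⟨g', hg'⟩ := Int.eq_ofNat_of_zero_le hg10.le
  obtain ⟨k', hk'⟩ := Int.eq_ofNat_of_zero_le hk0.le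
  have hcn : ((an ^ 2 + bn ^ 2 : ℕ) : ℤ) = a ^ 2 + b ^ 2 := by push_cast; rw [han, hbn]
  have hgk' : g' * k' = an ^ 2 + bn ^ 2 := by
    have : ((g' * k' : ℕ) : ℤ) = ((an ^ 2 + bn ^ 2 : ℕ) : ℤ) := by
      rw [hcn]; push_cast; rw [← hgk, hg', hk']
    exact_mod_cast this
  -- facts modulo a prime `p ≠ 2`
  have htwo : ∀ p : ℕ, p.Prime → p ≠ 2 → (2 : ZMod p) ≠ 0 := by
    intro p hp hp2 h0
    have : ((2 : ℕ) : ZMod p) = 0 := by exact_mod_cast h0
    rw [ZMod.natCast_eq_zero_iff] at this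
    exact hp2 ((Nat.prime_dvd_prime_iff_eq hp Nat.prime_two).mp this)
  obtain ⟨⟨η, hη⟩, ⟨δ, hδ⟩, htriv⟩ :
      IsSquare (Int.gcd a t) ∧ IsSquare (Int.gcd u b) ∧ (g' = 1 ∨ k' = 1) := by
    apply hcrit (Int.gcd a t) (Int.gcd u b) g' k'
    · have : (Int.gcd a t : ℤ) ∣ (an : ℤ) := by rw [han]; exact Int.gcd_dvd_left a t
      exact_mod_cast this
    · have h3 : (Int.gcd a t : ℤ) ∣ t := Int.gcd_dvd_right a t
      by_contra hne
      have h4 : (2 : ℤ) ∣ (Int.gcd a t : ℤ) := by omega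
      have := h4.trans h3
      omega
    · have : (Int.gcd u b : ℤ) ∣ (bn : ℤ) := by rw [hbn]; exact Int.gcd_dvd_right u b
      exact_mod_cast this
    · intro p hp hpd
      have d1 : (p : ℤ) ∣ u :=
        (Int.natCast_dvd_natCast.mpr hpd).trans (Int.gcd_dvd_left u b)
      have d2 : (p : ℤ) ∣ b :=
        (Int.natCast_dvd_natCast.mpr hpd).trans (Int.gcd_dvd_right u b)
      have hpp : Prime (p : ℤ) := Nat.prime_iff_prime_int.mp hp
      have d3 : (p : ℤ) ∣ u0 := by
        rw [hu0] at d1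
        rcases hpp.dvd_or_dvd d1 with d | d
        · exact (hncab p hp (by rw [ha1]; exact dvd_mul_of_dvd_left d a1) d2).elim
        · exact d
      have hp2 : p ≠ 2 := by rintro rfl; push_cast at d1; omega
      have hp3 : p % 4 ≠ 3 := fun h3 => not_dvd_sum p hp h3 m n hmn (by rw [← e3]; exact d3)
      have := hp.eq_two_or_odd
      omega
    · exact hgk'
    · intro p hp hpd
      have : Fact p.Prime := ⟨hp⟩
      have hpd' : (p : ℤ) ∣ a ^ 2 + b ^ 2 := by
        rw [← hcn]; exact Int.natCast_dvd_natCast.mpr hpd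
      have hc0 : ((a ^ 2 + b ^ 2 : ℤ) : ZMod p) = 0 :=
        (ZMod.intCast_zmod_eq_zero_iff_dvd _ p).mpr hpd'
      by_cases hp2 : p = 2
      · subst hp2
        generalize ((Int.gcd a t * Int.gcd u b : ℕ) : ZMod 2) = x
        revert x
        decide
      have h20 := htwo p hp hp2
      have hpp : Prime (p : ℤ) := Nat.prime_iff_prime_int.mp hp
      have haz : (a : ZMod p) ≠ 0 := by
        intro h0
        have d1 := (ZMod.intCast_zmod_eq_zero_iff_dvd _ p).mp h0
        have d2 : (p : ℤ) ∣ b ^ 2 := by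
          have h3 : b ^ 2 = (a ^ 2 + b ^ 2) - a ^ 2 := by ring
          rw [h3]; exact dvd_sub hpd' (dvd_pow d1 two_ne_zero)
        exact hncab p hp d1 (hpp.dvd_of_dvd_pow d2)
      push_cast at hc0
      have hi : ((b : ZMod p) / a) ^ 2 = -1 := by
        field_simp; linear_combination hc0
      set i : ZMod p := (b : ZMod p) / a
      have hvt' : (v : ZMod p) ^ 2 = (t : ZMod p) ^ 2 := by
        have := congrArg (fun x : ℤ => (x : ZMod p)) h2
        push_cast at this
        rw [hc0] at this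
        linear_combination -this
      have K1 := congrArg (fun x : ℤ => (x : ZMod p)) k1
      have K2 := congrArg (fun x : ℤ => (x : ZMod p)) k2
      have K3 := congrArg (fun x : ℤ => (x : ZMod p)) k3
      have K4 := congrArg (fun x : ℤ => (x : ZMod p)) k4
      push_cast at K1 K2 K3 K4
      have hDz : ((Int.gcd a t * Int.gcd u b : ℕ) : ZMod p) = (H : ZMod p) * (D : ZMod p) := by
        rw [hD, hH]; push_cast; rfl
      rw [hDz]
      have hghz : (g : ZMod p) ≠ 0 ∨ (h : ZMod p) ≠ 0 := by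
        by_contra hcon
        push Not at hcon
        exact no_common hgh p hp ((ZMod.intCast_zmod_eq_zero_iff_dvd _ p).mp hcon.1)
          ((ZMod.intCast_zmod_eq_zero_iff_dvd _ p).mp hcon.2)
      rcases sq_eq_sq_iff_eq_or_eq_neg.mp hvt' with hvt'' | hvt''
      · refine isSquare_of p _ g h (H * m) (i * (H * n)) ?_ ?_ hghz
        · apply mul_left_cancel₀ h20
          linear_combination (H : ZMod p) * (-K1 + K3 + hvt'')
        · apply mul_left_cancel₀ h20
          linear_combination (H : ZMod p) * (-K2 - K4 + hvt'') -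
            2 * (H : ZMod p) ^ 2 * (n : ZMod p) ^ 2 * hi
      · refine isSquare_of p _ g h (H * n) (i * (H * m)) ?_ ?_ hghz
        · apply mul_left_cancel₀ h20
          linear_combination (H : ZMod p) * (-K1 + K4 + hvt'')
        · apply mul_left_cancel₀ h20
          linear_combination (H : ZMod p) * (-K2 - K3 + hvt'') -
            2 * (H : ZMod p) ^ 2 * (m : ZMod p) ^ 2 * hi
    · intro p hp hpd hp4
      have : Fact p.Prime := ⟨hp⟩
      have hpb : (p : ℤ) ∣ b := by rw [← hbn]; exact Int.natCast_dvd_natCast.mpr hpd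
      have hbz : (b : ZMod p) = 0 := (ZMod.intCast_zmod_eq_zero_iff_dvd _ p).mpr hpb
      have hp2 : p ≠ 2 := by omega
      have h20 := htwo p hp hp2
      obtain ⟨i, hi⟩ : IsSquare (-1 : ZMod p) := ZMod.exists_sq_eq_neg_one_iff.mpr (by omega)
      have huv' : (v : ZMod p) ^ 2 = (u : ZMod p) ^ 2 := by
        have h3 : v ^ 2 = u ^ 2 + b ^ 2 * s ^ 2 := by linarith
        have := congrArg (fun x : ℤ => (x : ZMod p)) h3
        push_cast at this
        rw [hbz] at this
        linear_combination this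
      have K3 := congrArg (fun x : ℤ => (x : ZMod p)) k3
      have K4 := congrArg (fun x : ℤ => (x : ZMod p)) k4
      have K5 := congrArg (fun x : ℤ => (x : ZMod p)) hα
      have K6 := congrArg (fun x : ℤ => (x : ZMod p)) hβ
      have K7 := congrArg (fun x : ℤ => (x : ZMod p)) hαX
      have K8 := congrArg (fun x : ℤ => (x : ZMod p)) hβY
      have K9 := congrArg (fun x : ℤ => (x : ZMod p)) hgk
      push_cast at K3 K4 K5 K6 K7 K8 K9
      have hHz : (H : ZMod p) ≠ 0 := by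
        intro h0
        have d1 := (ZMod.intCast_zmod_eq_zero_iff_dvd _ p).mp h0
        exact hncab p hp (by rw [ha1]; exact dvd_mul_of_dvd_left d1 a1) hpb
      have hgz : ((Int.gcd a t * g' : ℕ) : ZMod p) = (H : ZMod p) * (g₁ : ZMod p) := by
        rw [hH, hg']; push_cast; rfl
      rw [hgz]
      have hαβ : (X : ZMod p) ≠ 0 ∨ (β : ZMod p) ≠ 0 := by
        by_contra hcon
        push Not at hcon
        have hα' : (α : ZMod p) = 0 := by rw [K7, hcon.1]; ring
        exact no_common (Int.isCoprime_iff_gcd_eq_one.mp hcop) p hp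
          ((ZMod.intCast_zmod_eq_zero_iff_dvd _ p).mp hα')
          ((ZMod.intCast_zmod_eq_zero_iff_dvd _ p).mp hcon.2)
      obtain ⟨A, B, hA, hB⟩ : ∃ A B : ZMod p, (H : ZMod p) * (α : ZMod p) = A ^ 2 ∧
          (H : ZMod p) * (β : ZMod p) = B ^ 2 := by
        rcases sq_eq_sq_iff_eq_or_eq_neg.mp huv' with hh | hh
        · refine ⟨H * n, H * m, ?_, ?_⟩
          · apply mul_left_cancel₀ h20
            linear_combination (H : ZMod p) * (-K5 + K4 + hh)
          · apply mul_left_cancel₀ h20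
            linear_combination (H : ZMod p) * (-K6 + K3 + hh)
        · refine ⟨i * (H * m), i * (H * n), ?_, ?_⟩
          · apply mul_left_cancel₀ h20
            linear_combination (H : ZMod p) * (-K5 - K3 + hh) +
              2 * (H : ZMod p) ^ 2 * (m : ZMod p) ^ 2 * hi
          · apply mul_left_cancel₀ h20
            linear_combination (H : ZMod p) * (-K6 - K4 + hh) +
              2 * (H : ZMod p) ^ 2 * (n : ZMod p) ^ 2 * hi
      refine isSquare_half p (H : ZMod p) (g₁ : ZMod p) (k : ZMod p) (X : ZMod p) (Y : ZMod p) A B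
        (a : ZMod p) (by rw [← K7]; exact hA) (by rw [← K8]; exact hB)
        (by rw [K9, hbz]; ring) ?_
      rcases hαβ with h3 | h3
      · exact Or.inl h3
      · right
        rintro rfl
        have : (H : ZMod p) * (β : ZMod p) = 0 := by rw [hB]; ring
        rcases mul_eq_zero.mp this with h4 | h4
        · exact hHz h4
        · exact h3 h4
    · intro p hp hpd hp2
      have : Fact p.Prime := ⟨hp⟩
      have hpa : (p : ℤ) ∣ a := by rw [← han]; exact Int.natCast_dvd_natCast.mpr hpd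
      have haz : (a : ZMod p) = 0 := (ZMod.intCast_zmod_eq_zero_iff_dvd _ p).mpr hpa
      have h20 := htwo p hp hp2
      have htu' : (t : ZMod p) ^ 2 = (u : ZMod p) ^ 2 := by
        have := congrArg (fun x : ℤ => (x : ZMod p)) h1
        push_cast at this
        rw [haz] at this
        linear_combination this
      have K1 := congrArg (fun x : ℤ => (x : ZMod p)) k1
      have K2 := congrArg (fun x : ℤ => (x : ZMod p)) k2
      have K5 := congrArg (fun x : ℤ => (x : ZMod p)) hα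
      have K6 := congrArg (fun x : ℤ => (x : ZMod p)) hβ
      have K7 := congrArg (fun x : ℤ => (x : ZMod p)) hαX
      have K8 := congrArg (fun x : ℤ => (x : ZMod p)) hβY
      have K9 := congrArg (fun x : ℤ => (x : ZMod p)) hgk
      push_cast at K1 K2 K5 K6 K7 K8 K9
      have hDz0 : (D : ZMod p) ≠ 0 := by
        intro h0
        have d1 := (ZMod.intCast_zmod_eq_zero_iff_dvd _ p).mp h0
        exact hncab p hp hpa (by rw [hb1]; exact dvd_mul_of_dvd_left d1 b1)
      have hgz : ((Int.gcd u b * g' : ℕ) : ZMod p) = (D : ZMod p) * (g₁ : ZMod p) := by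
        rw [hD, hg']; push_cast; rfl
      rw [hgz]
      have hαβ : (X : ZMod p) ≠ 0 ∨ (β : ZMod p) ≠ 0 := by
        by_contra hcon
        push Not at hcon
        have hα' : (α : ZMod p) = 0 := by rw [K7, hcon.1]; ring
        exact no_common (Int.isCoprime_iff_gcd_eq_one.mp hcop) p hp
          ((ZMod.intCast_zmod_eq_zero_iff_dvd _ p).mp hα')
          ((ZMod.intCast_zmod_eq_zero_iff_dvd _ p).mp hcon.2)
      obtain ⟨A, B, hA, hB⟩ : ∃ A B : ZMod p, (D : ZMod p) * (α : ZMod p) = A ^ 2 ∧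
          (D : ZMod p) * (β : ZMod p) = B ^ 2 := by
        rcases sq_eq_sq_iff_eq_or_eq_neg.mp htu' with hh | hh
        · refine ⟨D * h, D * g, ?_, ?_⟩
          · apply mul_left_cancel₀ h20
            linear_combination (D : ZMod p) * (-K5 + K2 - hh)
          · apply mul_left_cancel₀ h20
            linear_combination (D : ZMod p) * (-K6 + K1 + hh)
        · refine ⟨D * g, D * h, ?_, ?_⟩
          · apply mul_left_cancel₀ h20
            linear_combination (D : ZMod p) * (-K5 + K1 - hh)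
          · apply mul_left_cancel₀ h20
            linear_combination (D : ZMod p) * (-K6 + K2 + hh)
      refine isSquare_half p (D : ZMod p) (g₁ : ZMod p) (k : ZMod p) (X : ZMod p) (Y : ZMod p) A B
        (b : ZMod p) (by rw [← K7]; exact hA) (by rw [← K8]; exact hB)
        (by rw [K9, haz]; ring) ?_
      rcases hαβ with h3 | h3
      · exact Or.inl h3
      · right
        rintro rfl
        have : (D : ZMod p) * (β : ZMod p) = 0 := by rw [hB]; ring
        rcases mul_eq_zero.mp this with h4 | h4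
        · exact hDz0 h4
        · exact h3 h4
  have hHη : H = (η : ℤ) * η := by rw [hH, hη]; push_cast; rfl
  have hDδ : D = (δ : ℤ) * δ := by rw [hD, hδ]; push_cast; rfl
  have hη0 : (0 : ℤ) < η := by
    have : (η : ℤ) ≠ 0 := by rintro h0; rw [h0] at hHη; simp at hHη; omega
    have h3 : (0 : ℤ) ≤ η := by positivity
    omega
  have l1 : (η * m) ^ 2 + α = (δ * g : ℤ) ^ 2 := by
    have e4 : (δ * g : ℤ) ^ 2 = D * g ^ 2 := by rw [hDδ]; ring
    have e5 : (η * m : ℤ) ^ 2 = H * m ^ 2 := by rw [hHη]; ring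
    rw [e4, e5]; linarith
  have l2 : (η * n) ^ 2 + β = (δ * g : ℤ) ^ 2 := by
    have e4 : (δ * g : ℤ) ^ 2 = D * g ^ 2 := by rw [hDδ]; ring
    have e5 : (η * n : ℤ) ^ 2 = H * n ^ 2 := by rw [hHη]; ring
    rw [e4, e5]; linarith
  have e6 : a * s = 2 * (η * m) * (η * n) := by
    have : a * s = H * (a1 * s) := by rw [ha1]; ring
    rw [this, e2, hHη]; ring
  have hM : 0 < η * m := by positivity
  have hN : 0 < η * n := by positivity
  rcases htriv with h3 | h3
  · have hg1 : g₁ = 1 := by rw [hg', h3]; rfl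
    rw [hg1, one_mul] at hαX hgk
    rw [hgk] at hβY
    exact stepA a (a ^ 2 + b ^ 2) (δ * g) (η * m) (η * n) s w X Y hM hN hX0 hY0 hw e6 hXY
      (by rw [← hαX]; exact l1) (by rw [← hβY]; exact l2)
  · have hk1 : k = 1 := by rw [hk', h3]; rfl
    rw [hk1, one_mul] at hβY
    rw [hk1, mul_one] at hgk
    rw [hgk] at hαX
    exact stepA a (a ^ 2 + b ^ 2) (δ * g) (η * n) (η * m) s w Y X hN hM hY0 hX0 hw
      (by rw [e6]; ring) (by rw [mul_comm]; exact hXY) (by rw [← hβY]; exact l2)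
      (by rw [← hαX]; exact l1)

/-- One step of the descent. -/
lemma stepO (a b s t u v : ℤ) (an bn : ℕ) (han : (an : ℤ) = a) (hbn : (bn : ℤ) = b)
    (ha : 0 < a) (hb : 0 < b) (hso : s % 2 = 1) (h4a : (4 : ℤ) ∣ a)
    (h16 : ¬ (16 : ℤ) ∣ a) (hb2 : b % 2 = 1)
    (hsf : Squarefree (a ^ 2 + b ^ 2)) (hcrit : Crit3 an bn) (ht : 0 < t)
    (hs : 0 < s) (hst : Int.gcd s t = 1) (hu : 0 < u) (hv : 0 < v)
    (h1 : t ^ 2 + a ^ 2 * s ^ 2 = u ^ 2) (h2 : t ^ 2 + (a ^ 2 + b ^ 2) * s ^ 2 = v ^ 2) :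
    ∃ s' t' u' v' : ℤ, 0 < s' ∧ s' < s ∧ 0 < t' ∧ t' ^ 2 + a ^ 2 * s' ^ 2 = u' ^ 2 ∧
      t' ^ 2 + (a ^ 2 + b ^ 2) * s' ^ 2 = v' ^ 2 := by
  have hq0 : 0 < a ^ 2 + b ^ 2 := by positivity
  have ha4 : a % 4 = 0 := by omega
  have hc8 : (a ^ 2 + b ^ 2) % 8 = 1 := by
    have := sq_four a ha4
    have := sq_odd b hb2
    omega
  have hs2 := sq_odd s hso
  have hcs8 : ((a ^ 2 + b ^ 2) * s ^ 2) % 8 = 1 := by rw [Int.mul_emod, hc8, hs2]; norm_num
  have ht4 : t % 4 = 0 := by
    have hv := sq_cases v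
    have h3 : t % 2 = 1 ∨ t % 4 = 0 ∨ t % 4 = 2 := by omega
    rcases h3 with h3 | h3 | h3
    · have := sq_odd t h3
      omega
    · exact h3
    · have := sq_two t h3
      omega
  -- no common prime of `a` and `b`
  have hncab : ∀ p : ℕ, p.Prime → (p : ℤ) ∣ a → (p : ℤ) ∣ b → False := by
    intro p hp d1 d2
    have hpp : Prime (p : ℤ) := Nat.prime_iff_prime_int.mp hp
    exact hpp.not_isUnit (hsf _ (dvd_add (by rw [pow_two]; exact mul_dvd_mul d1 d1)
      (by rw [pow_two]; exact mul_dvd_mul d2 d2)))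
  -- (1)
  obtain ⟨H, hH⟩ : ∃ H : ℤ, H = (Int.gcd a t : ℤ) := ⟨_, rfl⟩
  have hH0 : 0 < H := by
    rw [hH]
    have : 0 < Int.gcd a t := Int.gcd_pos_of_ne_zero_left _ ha.ne'
    exact_mod_cast this
  obtain ⟨a1, ha1⟩ : H ∣ a := by rw [hH]; exact Int.gcd_dvd_left a t
  obtain ⟨t1, ht1⟩ : H ∣ t := by rw [hH]; exact Int.gcd_dvd_right a t
  obtain ⟨u0, hu0⟩ : H ∣ u := by
    have : H ^ 2 ∣ u ^ 2 := ⟨t1 ^ 2 + a1 ^ 2 * s ^ 2, by rw [← h1, ha1, ht1]; ring⟩
    exact (Int.pow_dvd_pow_iff (by norm_num)).mp this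
  have ha10 : 0 < a1 := by rw [ha1] at ha; exact (mul_pos_iff_of_pos_left hH0).mp ha
  have hu00 : 0 < u0 := by rw [hu0] at hu; exact (mul_pos_iff_of_pos_left hH0).mp hu
  have hgat : Int.gcd a1 t1 = 1 := gcd_div hH ha ha1 ht1
  have hct : Int.gcd t1 (a1 * s) = 1 := by
    rw [← Int.isCoprime_iff_gcd_eq_one]
    refine IsCoprime.mul_right (Int.isCoprime_iff_gcd_eq_one.mpr hgat).symm ?_
    have hcst : IsCoprime t s := (Int.isCoprime_iff_gcd_eq_one.mpr hst).symm
    rw [ht1] at hcst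
    exact hcst.of_mul_left_right
  have hu0sq : t1 ^ 2 + (a1 * s) ^ 2 = u0 ^ 2 := by
    have hH2 : H ^ 2 ≠ 0 := by positivity
    apply mul_left_cancel₀ hH2
    have h3 := h1
    rw [hu0, ha1, ht1] at h3
    linear_combination h3
  have ha1o : a1 % 2 = 1 := by
    by_contra hne
    have h5 : a1 % 2 = 0 := by omega
    have h6 : t1 % 2 = 1 := by
      by_contra hne2
      have h2a : ((2 : ℕ) : ℤ) ∣ a1 := by push_cast; omega
      have h2t : ((2 : ℕ) : ℤ) ∣ t1 := by push_cast; omega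
      exact no_common hgat 2 Nat.prime_two h2a h2t
    have h7 := sq_odd t1 h6
    have h8 : (a1 * s) % 4 = 0 := by
      have h9 := sq_cases u0
      have h10 : (a1 * s) % 2 = 0 := by rw [Int.mul_emod, h5]; simp
      have h11 : (a1 * s) % 4 = 0 ∨ (a1 * s) % 4 = 2 := by omega
      rcases h11 with h11 | h11
      · exact h11
      · have := sq_two (a1 * s) h11
        omega
    have h12 : (4 : ℤ) ∣ a1 := by
      have hc4 : IsCoprime (4 : ℤ) s := by
        have : IsCoprime (2 : ℤ) s := by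
          rw [Int.isCoprime_iff_gcd_eq_one]
          have hg2 : Int.gcd 2 s ∣ 2 := by
            have := Int.gcd_dvd_left 2 s
            exact_mod_cast this
          rcases (Nat.dvd_prime Nat.prime_two).mp hg2 with h3 | h3
          · exact h3
          · exfalso
            have := Int.gcd_dvd_right 2 s
            rw [h3] at this
            push_cast at this
            omega
        have h3 := this.mul_left this
        norm_num at h3
        exact h3
      exact hc4.dvd_of_dvd_mul_right (Int.dvd_of_emod_eq_zero h8)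
    have h13 : (4 : ℤ) ∣ H := by
      have hc4 : IsCoprime (4 : ℤ) t1 := by
        have : IsCoprime (2 : ℤ) t1 := by
          rw [Int.isCoprime_iff_gcd_eq_one]
          have hg2 : Int.gcd 2 t1 ∣ 2 := by
            have := Int.gcd_dvd_left 2 t1
            exact_mod_cast this
          rcases (Nat.dvd_prime Nat.prime_two).mp hg2 with h3 | h3
          · exact h3
          · exfalso
            have := Int.gcd_dvd_right 2 t1
            rw [h3] at this
            push_cast at this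
            omega
        have h3 := this.mul_left this
        norm_num at h3
        exact h3
      exact hc4.dvd_of_dvd_mul_right (by rw [← ht1]; exact Int.dvd_of_emod_eq_zero ht4)
    apply h16
    have := mul_dvd_mul h13 h12
    rw [← ha1] at this
    norm_num at this
    exact this
  have ht10 : 0 < t1 := by rw [ht1] at ht; exact (mul_pos_iff_of_pos_left hH0).mp ht
  have haso : (a1 * s) % 2 = 1 := by rw [Int.mul_emod, ha1o, hso]; norm_num
  have hP1 : PythagoreanTriple (a1 * s) t1 u0 := by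
    unfold PythagoreanTriple
    linear_combination hu0sq
  obtain ⟨m, n, e2, e1, e3, hmn, _, hm0⟩ :=
    PythagoreanTriple.coprime_classification' hP1 (by rw [Int.gcd_comm]; exact hct) haso hu00
  have has : 0 < a1 * s := by positivity
  have hm : 0 < m := by
    rcases hm0.lt_or_eq with h | h
    · exact h
    · rw [← h] at e1; simp at e1; omega
  have hn : 0 < n := by
    by_contra hn
    push Not at hn
    nlinarith
  have hmn0 : 0 < m - n := by
    by_contra hcon
    push Not at hcon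
    nlinarith
  have hvo : v % 2 = 1 := by
    have h3 := sq_four t ht4
    by_contra hne
    have h6 : v % 2 = 0 := by omega
    have h7 : v ^ 2 % 2 = 0 := by simp [pow_two, Int.mul_emod, h6]
    omega
  -- (2)
  obtain ⟨D, hD⟩ : ∃ D : ℤ, D = (Int.gcd u b : ℤ) := ⟨_, rfl⟩
  have hD0 : 0 < D := by
    rw [hD]
    have : 0 < Int.gcd u b := Int.gcd_pos_of_ne_zero_left _ hu.ne'
    exact_mod_cast this
  obtain ⟨u1, hu1⟩ : D ∣ u := by rw [hD]; exact Int.gcd_dvd_left u b
  obtain ⟨b1, hb1⟩ : D ∣ b := by rw [hD]; exact Int.gcd_dvd_right u b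
  obtain ⟨v1, hv1⟩ : D ∣ v := by
    have : D ^ 2 ∣ v ^ 2 := ⟨u1 ^ 2 + b1 ^ 2 * s ^ 2, by
      have : v ^ 2 = u ^ 2 + b ^ 2 * s ^ 2 := by linarith
      rw [this, hu1, hb1]; ring⟩
    exact (Int.pow_dvd_pow_iff (by norm_num)).mp this
  have hb10 : 0 < b1 := by rw [hb1] at hb; exact (mul_pos_iff_of_pos_left hD0).mp hb
  have hv10 : 0 < v1 := by rw [hv1] at hv; exact (mul_pos_iff_of_pos_left hD0).mp hv
  have hgub : Int.gcd u1 b1 = 1 := gcd_div hD hu hu1 hb1
  have hgus : IsCoprime u s := by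
    rw [Int.isCoprime_iff_gcd_eq_one]
    by_contra hne
    obtain ⟨p, hp1, d1, d⟩ := prime_of_gcd hne
    have hpp : Prime (p : ℤ) := Nat.prime_iff_prime_int.mp hp1
    have d3 : (p : ℤ) ∣ t ^ 2 := by
      have h3 : t ^ 2 = u ^ 2 - a ^ 2 * s ^ 2 := by linarith
      rw [h3]
      exact dvd_sub (dvd_pow d1 two_ne_zero) (dvd_mul_of_dvd_right (dvd_pow d two_ne_zero) _)
    exact no_common hst p hp1 d (hpp.dvd_of_dvd_pow d3)
  have hcu : Int.gcd u1 (b1 * s) = 1 := by
    rw [← Int.isCoprime_iff_gcd_eq_one]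
    refine IsCoprime.mul_right (Int.isCoprime_iff_gcd_eq_one.mpr hgub) ?_
    rw [hu1] at hgus
    exact hgus.of_mul_left_right
  have hb1o : b1 % 2 = 1 := by
    by_contra hne
    have h6 : b1 % 2 = 0 := by omega
    have h7 : b % 2 = 0 := by rw [hb1]; simp [Int.mul_emod, h6]
    omega
  have hbso : (b1 * s) % 2 = 1 := by rw [Int.mul_emod, hb1o, hso]; norm_num
  have hP2 : PythagoreanTriple (b1 * s) u1 v1 := by
    unfold PythagoreanTriple
    have hD2 : D ^ 2 ≠ 0 := by positivity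
    apply mul_left_cancel₀ hD2
    have h3 : v ^ 2 = u ^ 2 + b ^ 2 * s ^ 2 := by linarith
    rw [hu1, hb1, hv1] at h3
    linear_combination -h3
  obtain ⟨g₀, h₀, f2, f1, f3, hgh, _, hg0⟩ :=
    PythagoreanTriple.coprime_classification' hP2 (by rw [Int.gcd_comm]; exact hcu) hbso hv10
  have k1 : u + v = D * (g₀ + h₀) ^ 2 := by
    have : u + v = D * (u1 + v1) := by rw [hu1, hv1]; ring
    rw [this, f1, f3]; ring
  have k2 : v - u = D * (g₀ - h₀) ^ 2 := by
    have : v - u = D * (v1 - u1) := by rw [hu1, hv1]; ring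
    rw [this, f1, f3]; ring
  have k3 : u + t = H * (m + n) ^ 2 := by
    have : u + t = H * (u0 + t1) := by rw [hu0, ht1]; ring
    rw [this, e3, e1]; ring
  have k4 : u - t = H * (m - n) ^ 2 := by
    have : u - t = H * (u0 - t1) := by rw [hu0, ht1]; ring
    rw [this, e3, e1]; ring
  -- (3)
  obtain ⟨α, hα⟩ : ∃ α, v - t = α := ⟨v - t, rfl⟩
  obtain ⟨β, hβ⟩ : ∃ β, v + t = β := ⟨v + t, rfl⟩
  have hprod : α * β = (a ^ 2 + b ^ 2) * s ^ 2 := by
    rw [← hα, ← hβ]; linarith [h2]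
  have hvt : t ^ 2 < v ^ 2 := by
    have : 0 < (a ^ 2 + b ^ 2) * s ^ 2 := by positivity
    linarith
  have hvt2 := abs_lt_of_sq_lt_sq hvt hv.le
  have hvt3 := abs_lt.mp hvt2
  have hα0 : 0 < α := by linarith [hvt3.2]
  have hβ0 : 0 < β := by linarith [hvt3.1]
  have hαo : α % 2 = 1 := by omega
  have hcop : IsCoprime α β := by
    rw [Int.isCoprime_iff_gcd_eq_one]
    by_contra hne
    obtain ⟨p, hp1, d1, d2⟩ := prime_of_gcd hne
    have hpp : Prime (p : ℤ) := Nat.prime_iff_prime_int.mp hp1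
    have hp2 : p ≠ 2 := by rintro rfl; push_cast at d1; omega
    have dt : (p : ℤ) ∣ t := by
      have h3 : (p : ℤ) ∣ 2 * t := by
        have h4 : 2 * t = β - α := by linarith
        rw [h4]; exact dvd_sub d2 d1
      rcases hpp.dvd_or_dvd h3 with h5 | h5
      · exfalso
        have h6 : (p : ℤ) ∣ ((2 : ℕ) : ℤ) := by exact_mod_cast h5
        exact hp2 ((Nat.prime_dvd_prime_iff_eq hp1 Nat.prime_two).mp (Int.natCast_dvd_natCast.mp h6))
      · exact h5
    have ds : ¬ (p : ℤ) ∣ s := fun d => no_common hst p hp1 d dt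
    have dq : (p : ℤ) * p ∣ (a ^ 2 + b ^ 2) * s ^ 2 := by
      rw [← hprod]; exact mul_dvd_mul d1 d2
    have hcw : IsCoprime ((p : ℤ) * p) (s ^ 2) := by
      have h3 : IsCoprime (p : ℤ) s := (Prime.coprime_iff_not_dvd hpp).mpr ds
      exact (h3.mul_left h3).pow_right
    exact hpp.not_isUnit (hsf _ (hcw.dvd_of_dvd_mul_right dq))
  obtain ⟨g₁, k, X, Y, hg10, hk0, hX0, hY0, hgk, hαX, hβY, hXY⟩ :=
    split_mul α β (a ^ 2 + b ^ 2) s hα0 hβ0 hq0 hs hcop hprod
  obtain ⟨g', hg'⟩ := Int.eq_ofNat_of_zero_le hg10.le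
  obtain ⟨k', hk'⟩ := Int.eq_ofNat_of_zero_le hk0.le
  have hcn : ((an ^ 2 + bn ^ 2 : ℕ) : ℤ) = a ^ 2 + b ^ 2 := by push_cast; rw [han, hbn]
  have hgk' : g' * k' = an ^ 2 + bn ^ 2 := by
    have : ((g' * k' : ℕ) : ℤ) = ((an ^ 2 + bn ^ 2 : ℕ) : ℤ) := by
      rw [hcn]; push_cast; rw [← hgk, hg', hk']
    exact_mod_cast this
  -- facts modulo a prime `p ≠ 2`
  have htwo : ∀ p : ℕ, p.Prime → p ≠ 2 → (2 : ZMod p) ≠ 0 := by
    intro p hp hp2 h0
    have : ((2 : ℕ) : ZMod p) = 0 := by exact_mod_cast h0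
    rw [ZMod.natCast_eq_zero_iff] at this
    exact hp2 ((Nat.prime_dvd_prime_iff_eq hp Nat.prime_two).mp this)
  obtain ⟨⟨η, hη⟩, ⟨δ, hδ⟩, htriv⟩ :
      IsSquare (Int.gcd a t) ∧ IsSquare (Int.gcd u b) ∧ (g' = 1 ∨ k' = 1) := by
    apply hcrit (Int.gcd a t) (Int.gcd u b) g' k'
    · have : (Int.gcd a t : ℤ) ∣ (an : ℤ) := by rw [han]; exact Int.gcd_dvd_left a t
      exact_mod_cast this
    · right
      constructor
      · have : ((4 : ℕ) : ℤ) ∣ (an : ℤ) := by rw [han]; exact_mod_cast h4a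
        exact_mod_cast this
      · have h3 : ((an / Int.gcd a t : ℕ) : ℤ) = a1 := by
          rw [Int.natCast_div, han, ← hH]
          exact Int.ediv_eq_of_eq_mul_right hH0.ne' ha1
        have h4 : ((an / Int.gcd a t : ℕ) : ℤ) % 2 = 1 := by rw [h3]; exact ha1o
        exact_mod_cast h4
    · have : (Int.gcd u b : ℤ) ∣ (bn : ℤ) := by rw [hbn]; exact Int.gcd_dvd_right u b
      exact_mod_cast this
    · intro p hp hpd
      have d1 : (p : ℤ) ∣ u :=
        (Int.natCast_dvd_natCast.mpr hpd).trans (Int.gcd_dvd_left u b)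
      have d2 : (p : ℤ) ∣ b :=
        (Int.natCast_dvd_natCast.mpr hpd).trans (Int.gcd_dvd_right u b)
      have hpp : Prime (p : ℤ) := Nat.prime_iff_prime_int.mp hp
      have d3 : (p : ℤ) ∣ u0 := by
        rw [hu0] at d1
        rcases hpp.dvd_or_dvd d1 with d | d
        · exact (hncab p hp (by rw [ha1]; exact dvd_mul_of_dvd_left d a1) d2).elim
        · exact d
      have hp2 : p ≠ 2 := by rintro rfl; push_cast at d2; omega
      have hp3 : p % 4 ≠ 3 := fun h3 => not_dvd_sum p hp h3 m n hmn (by rw [← e3]; exact d3)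
      have := hp.eq_two_or_odd
      omega
    · exact hgk'
    · intro p hp hpd
      have : Fact p.Prime := ⟨hp⟩
      have hpd' : (p : ℤ) ∣ a ^ 2 + b ^ 2 := by
        rw [← hcn]; exact Int.natCast_dvd_natCast.mpr hpd
      have hc0 : ((a ^ 2 + b ^ 2 : ℤ) : ZMod p) = 0 :=
        (ZMod.intCast_zmod_eq_zero_iff_dvd _ p).mpr hpd'
      by_cases hp2 : p = 2
      · subst hp2
        generalize ((Int.gcd a t * Int.gcd u b : ℕ) : ZMod 2) = x
        revert x
        decide
      have h20 := htwo p hp hp2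
      have hpp : Prime (p : ℤ) := Nat.prime_iff_prime_int.mp hp
      have haz : (a : ZMod p) ≠ 0 := by
        intro h0
        have d1 := (ZMod.intCast_zmod_eq_zero_iff_dvd _ p).mp h0
        have d2 : (p : ℤ) ∣ b ^ 2 := by
          have h3 : b ^ 2 = (a ^ 2 + b ^ 2) - a ^ 2 := by ring
          rw [h3]; exact dvd_sub hpd' (dvd_pow d1 two_ne_zero)
        exact hncab p hp d1 (hpp.dvd_of_dvd_pow d2)
      push_cast at hc0
      have hi : ((b : ZMod p) / a) ^ 2 = -1 := by
        field_simp; linear_combination hc0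
      set i : ZMod p := (b : ZMod p) / a
      have hvt' : (v : ZMod p) ^ 2 = (t : ZMod p) ^ 2 := by
        have := congrArg (fun x : ℤ => (x : ZMod p)) h2
        push_cast at this
        rw [hc0] at this
        linear_combination -this
      have K1 := congrArg (fun x : ℤ => (x : ZMod p)) k1
      have K2 := congrArg (fun x : ℤ => (x : ZMod p)) k2
      have K3 := congrArg (fun x : ℤ => (x : ZMod p)) k3
      have K4 := congrArg (fun x : ℤ => (x : ZMod p)) k4
      push_cast at K1 K2 K3 K4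
      have hDz : ((Int.gcd a t * Int.gcd u b : ℕ) : ZMod p) = (H : ZMod p) * (D : ZMod p) := by
        rw [hD, hH]; push_cast; rfl
      rw [hDz]
      have hghz : ((g₀ : ZMod p) + h₀) ≠ 0 ∨ ((g₀ : ZMod p) - h₀) ≠ 0 := by
        by_contra hcon
        push Not at hcon
        have z1 : (g₀ : ZMod p) = 0 := by
          apply mul_left_cancel₀ h20
          linear_combination hcon.1 + hcon.2
        have z2 : (h₀ : ZMod p) = 0 := by
          apply mul_left_cancel₀ h20
          linear_combination hcon.1 - hcon.2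
        exact no_common hgh p hp ((ZMod.intCast_zmod_eq_zero_iff_dvd _ p).mp z1)
          ((ZMod.intCast_zmod_eq_zero_iff_dvd _ p).mp z2)
      rcases sq_eq_sq_iff_eq_or_eq_neg.mp hvt' with hvt'' | hvt''
      · refine isSquare_of p _ ((g₀ : ZMod p) + h₀) ((g₀ : ZMod p) - h₀) (H * (m + n))
          (i * (H * (m - n))) ?_ ?_ hghz
        · linear_combination (H : ZMod p) * (-K1 + K3 + hvt'')
        · linear_combination (H : ZMod p) * (-K2 - K4 + hvt'') -
            (H : ZMod p) ^ 2 * ((m : ZMod p) - n) ^ 2 * hi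
      · refine isSquare_of p _ ((g₀ : ZMod p) + h₀) ((g₀ : ZMod p) - h₀) (H * (m - n))
          (i * (H * (m + n))) ?_ ?_ hghz
        · linear_combination (H : ZMod p) * (-K1 + K4 + hvt'')
        · linear_combination (H : ZMod p) * (-K2 - K3 + hvt'') -
            (H : ZMod p) ^ 2 * ((m : ZMod p) + n) ^ 2 * hi
    · intro p hp hpd hp4
      have : Fact p.Prime := ⟨hp⟩
      have hpb : (p : ℤ) ∣ b := by rw [← hbn]; exact Int.natCast_dvd_natCast.mpr hpd
      have hbz : (b : ZMod p) = 0 := (ZMod.intCast_zmod_eq_zero_iff_dvd _ p).mpr hpb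
      have hp2 : p ≠ 2 := by omega
      have h20 := htwo p hp hp2
      obtain ⟨i, hi⟩ : IsSquare (-1 : ZMod p) := ZMod.exists_sq_eq_neg_one_iff.mpr (by omega)
      have huv' : (v : ZMod p) ^ 2 = (u : ZMod p) ^ 2 := by
        have h3 : v ^ 2 = u ^ 2 + b ^ 2 * s ^ 2 := by linarith
        have := congrArg (fun x : ℤ => (x : ZMod p)) h3
        push_cast at this
        rw [hbz] at this
        linear_combination this
      have K3 := congrArg (fun x : ℤ => (x : ZMod p)) k3
      have K4 := congrArg (fun x : ℤ => (x : ZMod p)) k4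
      have K5 := congrArg (fun x : ℤ => (x : ZMod p)) hα
      have K6 := congrArg (fun x : ℤ => (x : ZMod p)) hβ
      have K7 := congrArg (fun x : ℤ => (x : ZMod p)) hαX
      have K8 := congrArg (fun x : ℤ => (x : ZMod p)) hβY
      have K9 := congrArg (fun x : ℤ => (x : ZMod p)) hgk
      push_cast at K3 K4 K5 K6 K7 K8 K9
      have hHz : (H : ZMod p) ≠ 0 := by
        intro h0
        have d1 := (ZMod.intCast_zmod_eq_zero_iff_dvd _ p).mp h0
        exact hncab p hp (by rw [ha1]; exact dvd_mul_of_dvd_left d1 a1) hpb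
      have hgz : ((Int.gcd a t * g' : ℕ) : ZMod p) = (H : ZMod p) * (g₁ : ZMod p) := by
        rw [hH, hg']; push_cast; rfl
      rw [hgz]
      have hαβ : (X : ZMod p) ≠ 0 ∨ (β : ZMod p) ≠ 0 := by
        by_contra hcon
        push Not at hcon
        have hα' : (α : ZMod p) = 0 := by rw [K7, hcon.1]; ring
        exact no_common (Int.isCoprime_iff_gcd_eq_one.mp hcop) p hp
          ((ZMod.intCast_zmod_eq_zero_iff_dvd _ p).mp hα')
          ((ZMod.intCast_zmod_eq_zero_iff_dvd _ p).mp hcon.2)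
      obtain ⟨A, B, hA, hB⟩ : ∃ A B : ZMod p, (H : ZMod p) * (α : ZMod p) = A ^ 2 ∧
          (H : ZMod p) * (β : ZMod p) = B ^ 2 := by
        rcases sq_eq_sq_iff_eq_or_eq_neg.mp huv' with hh | hh
        · refine ⟨H * (m - n), H * (m + n), ?_, ?_⟩
          · linear_combination (H : ZMod p) * (-K5 + K4 + hh)
          · linear_combination (H : ZMod p) * (-K6 + K3 + hh)
        · refine ⟨i * (H * (m + n)), i * (H * (m - n)), ?_, ?_⟩
          · linear_combination (H : ZMod p) * (-K5 - K3 + hh) +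
              (H : ZMod p) ^ 2 * ((m : ZMod p) + n) ^ 2 * hi
          · linear_combination (H : ZMod p) * (-K6 - K4 + hh) +
              (H : ZMod p) ^ 2 * ((m : ZMod p) - n) ^ 2 * hi
      refine isSquare_half p (H : ZMod p) (g₁ : ZMod p) (k : ZMod p) (X : ZMod p) (Y : ZMod p) A B
        (a : ZMod p) (by rw [← K7]; exact hA) (by rw [← K8]; exact hB)
        (by rw [K9, hbz]; ring) ?_
      rcases hαβ with h3 | h3
      · exact Or.inl h3
      · right
        rintro rfl
        have : (H : ZMod p) * (β : ZMod p) = 0 := by rw [hB]; ring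
        rcases mul_eq_zero.mp this with h4 | h4
        · exact hHz h4
        · exact h3 h4
    · intro p hp hpd hp2
      have : Fact p.Prime := ⟨hp⟩
      have hpa : (p : ℤ) ∣ a := by rw [← han]; exact Int.natCast_dvd_natCast.mpr hpd
      have haz : (a : ZMod p) = 0 := (ZMod.intCast_zmod_eq_zero_iff_dvd _ p).mpr hpa
      have h20 := htwo p hp hp2
      have htu' : (t : ZMod p) ^ 2 = (u : ZMod p) ^ 2 := by
        have := congrArg (fun x : ℤ => (x : ZMod p)) h1
        push_cast at this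
        rw [haz] at this
        linear_combination this
      have K1 := congrArg (fun x : ℤ => (x : ZMod p)) k1
      have K2 := congrArg (fun x : ℤ => (x : ZMod p)) k2
      have K5 := congrArg (fun x : ℤ => (x : ZMod p)) hα
      have K6 := congrArg (fun x : ℤ => (x : ZMod p)) hβ
      have K7 := congrArg (fun x : ℤ => (x : ZMod p)) hαX
      have K8 := congrArg (fun x : ℤ => (x : ZMod p)) hβY
      have K9 := congrArg (fun x : ℤ => (x : ZMod p)) hgk
      push_cast at K1 K2 K5 K6 K7 K8 K9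
      have hDz0 : (D : ZMod p) ≠ 0 := by
        intro h0
        have d1 := (ZMod.intCast_zmod_eq_zero_iff_dvd _ p).mp h0
        exact hncab p hp hpa (by rw [hb1]; exact dvd_mul_of_dvd_left d1 b1)
      have hgz : ((Int.gcd u b * g' : ℕ) : ZMod p) = (D : ZMod p) * (g₁ : ZMod p) := by
        rw [hD, hg']; push_cast; rfl
      rw [hgz]
      have hαβ : (X : ZMod p) ≠ 0 ∨ (β : ZMod p) ≠ 0 := by
        by_contra hcon
        push Not at hcon
        have hα' : (α : ZMod p) = 0 := by rw [K7, hcon.1]; ring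
        exact no_common (Int.isCoprime_iff_gcd_eq_one.mp hcop) p hp
          ((ZMod.intCast_zmod_eq_zero_iff_dvd _ p).mp hα')
          ((ZMod.intCast_zmod_eq_zero_iff_dvd _ p).mp hcon.2)
      obtain ⟨A, B, hA, hB⟩ : ∃ A B : ZMod p, (D : ZMod p) * (α : ZMod p) = A ^ 2 ∧
          (D : ZMod p) * (β : ZMod p) = B ^ 2 := by
        rcases sq_eq_sq_iff_eq_or_eq_neg.mp htu' with hh | hh
        · refine ⟨D * (g₀ - h₀), D * (g₀ + h₀), ?_, ?_⟩
          · linear_combination (D : ZMod p) * (-K5 + K2 - hh)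
          · linear_combination (D : ZMod p) * (-K6 + K1 + hh)
        · refine ⟨D * (g₀ + h₀), D * (g₀ - h₀), ?_, ?_⟩
          · linear_combination (D : ZMod p) * (-K5 + K1 - hh)
          · linear_combination (D : ZMod p) * (-K6 + K2 + hh)
      refine isSquare_half p (D : ZMod p) (g₁ : ZMod p) (k : ZMod p) (X : ZMod p) (Y : ZMod p) A B
        (b : ZMod p) (by rw [← K7]; exact hA) (by rw [← K8]; exact hB)
        (by rw [K9, haz]; ring) ?_
      rcases hαβ with h3 | h3
      · exact Or.inl h3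
      · right
        rintro rfl
        have : (D : ZMod p) * (β : ZMod p) = 0 := by rw [hB]; ring
        rcases mul_eq_zero.mp this with h4 | h4
        · exact hDz0 h4
        · exact h3 h4
  have hHη : H = (η : ℤ) * η := by rw [hH, hη]; push_cast; rfl
  have hDδ : D = (δ : ℤ) * δ := by rw [hD, hδ]; push_cast; rfl
  have hη0 : (0 : ℤ) < η := by
    have : (η : ℤ) ≠ 0 := by rintro h0; rw [h0] at hHη; simp at hHη; omega
    have h3 : (0 : ℤ) ≤ η := by positivity
    omega
  have l1 : (η * (m + n)) ^ 2 + α = (δ * (g₀ + h₀) : ℤ) ^ 2 := by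
    have e4 : (δ * (g₀ + h₀) : ℤ) ^ 2 = D * (g₀ + h₀) ^ 2 := by rw [hDδ]; ring
    have e5 : (η * (m + n) : ℤ) ^ 2 = H * (m + n) ^ 2 := by rw [hHη]; ring
    rw [e4, e5]; linarith
  have l2 : (η * (m - n)) ^ 2 + β = (δ * (g₀ + h₀) : ℤ) ^ 2 := by
    have e4 : (δ * (g₀ + h₀) : ℤ) ^ 2 = D * (g₀ + h₀) ^ 2 := by rw [hDδ]; ring
    have e5 : (η * (m - n) : ℤ) ^ 2 = H * (m - n) ^ 2 := by rw [hHη]; ring
    rw [e4, e5]; linarith
  have e6 : a * s = (η * (m + n)) * (η * (m - n)) := by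
    have : a * s = H * (a1 * s) := by rw [ha1]; ring
    rw [this, e2, hHη]; ring
  have hM : 0 < η * (m + n) := by
    have : 0 < m + n := by omega
    positivity
  have hN : 0 < η * (m - n) := by positivity
  -- `u < v`
  have huv : u < v := by
    have h3 : 0 < b ^ 2 * s ^ 2 := by positivity
    have h4 : u ^ 2 < v ^ 2 := by linarith
    exact lt_of_pow_lt_pow_left₀ 2 hv.le h4
  have hα2 : 1 < α := by
    have h3 : 0 < H * (m - n) ^ 2 := by positivity
    linarith
  have hβ2 : 1 < β := by linarith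
  rcases htriv with h3 | h3
  · have hg1 : g₁ = 1 := by rw [hg', h3]; rfl
    rw [hg1, one_mul] at hαX hgk
    rw [hgk] at hβY
    have hX1 : 1 < X := by
      by_contra hcon
      push Not at hcon
      have : X = 1 := by omega
      rw [this] at hαX
      omega
    exact stepB a (a ^ 2 + b ^ 2) (δ * (g₀ + h₀)) (η * (m + n)) (η * (m - n)) s X Y hM hN hX1 hY0
      e6 hXY (by rw [← hαX]; exact l1) (by rw [← hβY]; exact l2)
  · have hk1 : k = 1 := by rw [hk', h3]; rfl
    rw [hk1, one_mul] at hβY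
    rw [hk1, mul_one] at hgk
    rw [hgk] at hαX
    have hY1 : 1 < Y := by
      by_contra hcon
      push Not at hcon
      have : Y = 1 := by omega
      rw [this] at hβY
      omega
    exact stepB a (a ^ 2 + b ^ 2) (δ * (g₀ + h₀)) (η * (m - n)) (η * (m + n)) s Y X hN hM hY1 hX0
      (by rw [e6]; ring) (by rw [mul_comm]; exact hXY) (by rw [← hβY]; exact l2)
      (by rw [← hαX]; exact l1)

/-- One step of the descent. -/
lemma step3 (a b s t u v : ℤ) (an bn : ℕ) (han : (an : ℤ) = a) (hbn : (bn : ℤ) = b)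
    (ha : 0 < a) (hb : 0 < b) (h4b : ¬ (4 : ℤ) ∣ b) (h16 : ¬ (16 : ℤ) ∣ a)
    (hsf : Squarefree (a ^ 2 + b ^ 2)) (hcrit : Crit3 an bn)
    (hs : 0 < s) (ht : 0 < t) (hst : Int.gcd s t = 1) (hu : 0 < u) (hv : 0 < v)
    (h1 : t ^ 2 + a ^ 2 * s ^ 2 = u ^ 2) (h2 : t ^ 2 + (a ^ 2 + b ^ 2) * s ^ 2 = v ^ 2) :
    ∃ s' t' u' v' : ℤ, 0 < s' ∧ s' < s ∧ 0 < t' ∧ t' ^ 2 + a ^ 2 * s' ^ 2 = u' ^ 2 ∧
      t' ^ 2 + (a ^ 2 + b ^ 2) * s' ^ 2 = v' ^ 2 := by
  by_cases hse : s % 2 = 0
  · exact stepE a b s t u v an bn han hbn ha hb hse hsf hcrit.crit hs hst hu hv h1 h2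
  · have hso : s % 2 = 1 := by omega
    have h2ab : ¬ ((2 : ℤ) ∣ a ∧ (2 : ℤ) ∣ b) := by
      rintro ⟨d1, d2⟩
      have := hsf 2 (dvd_add (by rw [pow_two]; exact mul_dvd_mul d1 d1)
        (by rw [pow_two]; exact mul_dvd_mul d2 d2))
      rw [Int.isUnit_iff] at this
      omega
    by_cases h4 : (4 : ℤ) ∣ a
    · have hb2 : b % 2 = 1 := by
        by_contra hne
        exact h2ab ⟨by omega, by omega⟩
      exact stepO a b s t u v an bn han hbn ha hb hso h4 h16 hb2 hsf hcrit ht hs hst hu hv h1 h2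
    · exfalso
      apply hse
      apply s_even2 a b s t u v _ h1 h2
      intro hd
      have hmod := Int.emod_eq_zero_of_dvd hd
      rw [Int.mul_emod] at hmod
      have h3 : a % 4 = 1 ∨ a % 4 = 2 ∨ a % 4 = 3 := by omega
      have h5 : b % 4 = 1 ∨ b % 4 = 2 ∨ b % 4 = 3 := by omega
      rcases h3 with h3 | h3 | h3 <;> rcases h5 with h5 | h5 | h5 <;> rw [h3, h5] at hmod <;>
        omega

end Pool.Agent.CUBD
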